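import Pool.Agent.ETRP.H0

/-!
**Theorem COLOR** (note 2768, helper53), steps (0)-(6).
-/

set_option autoImplicit false
set_option linter.unusedSimpArgs false
set_option linter.unnecessarySeqFocus false
set_option linter.unusedSectionVars false

namespace Pool.Agent.ETRP

open Pool.Agent.Helper58.PLine (QData)
open Pool.Agent.ETCP
open Pool.Agent.ETPF
open Pool.Agent.ETPN
open Pool.Agent.ETPG (mkS)

variable {V Q : Type} [AddCommGroup V] [Module (ZMod 2) V] {D : QData V Q}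

/-- `ker κ` has codimension two and `V_v ⊆ ⟨v⟩ + ker κ` for all `v ∉ ker κ` -/
structure CO (D : QData V Q) (κ : V →ₗ[ZMod 2] K) : Prop where
  he : D.e = 0
  hC : ∀ v w, κ v ≠ 0 → C D v w → κ w = 0 ∨ κ w = κ v
  su : ∀ a : K, ∃ v, κ v = a

variable (D) in
/-- `V_u` meets the class `a` -/
def Tc (κ : V →ₗ[ZMod 2] K) (u : V) (a : K) : Prop := ∃ y, C D u y ∧ κ y = a

theorem k_other (a : K) : ∃ b : K, b ≠ 0 ∧ b ≠ a := by
  revert a; decide

theorem k_all {a b : K} (ha : a ≠ 0) (hb : b ≠ 0) (hab : a ≠ b) (x : K) :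
    x = 0 ∨ x = a ∨ x = b ∨ x = a + b := by
  revert a b x; decide

section tc

variable {κ : V →ₗ[ZMod 2] K}

theorem Tc.zero (u : V) : Tc D κ u 0 := ⟨0, C.zero u, map_zero κ⟩

theorem Tc.add {u : V} {a b : K} (h : Tc D κ u a) (h' : Tc D κ u b) : Tc D κ u (a + b) := by
  obtain ⟨y, h1, h2⟩ := h
  obtain ⟨y', h3, h4⟩ := h'
  exact ⟨y + y', h1.add h3, by rw [map_add, h2, h4]⟩

theorem Tc.all {u : V} {a b : K} (h : Tc D κ u a) (h' : Tc D κ u b) (ha : a ≠ 0) (hb : b ≠ 0)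
    (hab : a ≠ b) (x : K) : Tc D κ u x := by
  rcases k_all ha hb hab x with rfl | rfl | rfl | rfl
  · exact Tc.zero u
  · exact h
  · exact h'
  · exact h.add h'

end tc

namespace CO

variable {κ : V →ₗ[ZMod 2] K} (X : CO D κ)
include X

/-- (0): elements of different classes do not commute, and the slots of their product avoid
`ker κ` -/
theorem av {s t : V} (hs : κ s ≠ 0) (ht : κ t ≠ 0) (hst : κ s ≠ κ t) {u : V}
    (hu : Sg D (D.q s t) u) : κ u ≠ 0 := by
  intro ku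
  obtain ⟨r, h1, h2⟩ := Sg.common (s := s) ⟨t, rfl⟩ hu
  have h3 : C D s (t + r) := q_eq_iff.1 h1.symm
  have h4 := X.hC s _ hs h3
  rw [map_add] at h4
  have h5 : C D r (u + s) := (q_eq'_iff.1 (h2.trans h1.symm)).symm
  have key : ∀ s t r : K, s ≠ 0 → t ≠ 0 → s ≠ t → (t + r = 0 ∨ t + r = s) →
      r ≠ 0 ∧ s ≠ r := by decide
  obtain ⟨k1, k2⟩ := key _ _ _ hs ht hst h4
  have h6 := X.hC r _ k1 h5
  rw [map_add, ku, zero_add] at h6
  rcases h6 with h | h
  · exact hs h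
  · exact k2 h

/-- (1): the colour rule -/
theorem rule {u u' : V} {a b : K} (ku : κ u = 0) (ku' : κ u' = 0) (ha : a ≠ 0) (hb : b ≠ 0)
    (hab : a ≠ b) (h : Tc D κ u a) (h' : Tc D κ u' b) :
    Tc D κ (u + u') a ∨ Tc D κ (u + u') b := by
  obtain ⟨y, h1, h2⟩ := h
  obtain ⟨y', h3, h4⟩ := h'
  have av : ∀ v, Sg D (D.q y y') v → κ v ≠ 0 := fun v hv =>
    X.av (by rwa [h2]) (by rwa [h4]) (by rwa [h2, h4]) hv
  have n1 : D.q y (y' + y) = D.q y y' := qa rfl (C.self X.he y)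
  have n2 : D.q y (y' + y + u) = D.q y y' := qa n1 h1.symm
  have n3 : D.q y' (y + y') = D.q y y' := qa (D.symm _ _) (C.self X.he y')
  have n4 : D.q y' (y + y' + u') = D.q y y' := qa n3 h3.symm
  obtain ⟨w, g1, g2⟩ := Sg.common (Sg.right n2) (Sg.right n4)
  have g3 := cls_nb X.he av g1
  have g4 : C D (u + u') w := (q_eq'_iff.1 (g1.trans g2.symm)).of_eq (eo (by
    abel_nf <;> simp only [ch2, ch3, ch4, add_zero, zero_add])) rfl
  have e1 : κ (y' + y + u) = a + b := by rw [map_add, map_add, h2, h4, ku, add_zero, add_comm]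
  rw [e1] at g3
  rcases k_all ha hb hab (κ w) with h | h | h | h
  · exact absurd h g3.1
  · exact Or.inl ⟨w, g4, h⟩
  · exact Or.inr ⟨w, g4, h⟩
  · exact absurd h g3.2

/-- the elements of `ker κ` which commute with elements of all classes -/
def Y (X : CO D κ) : Submodule (ZMod 2) V :=
  mkS (fun u => κ u = 0 ∧ ∀ a, Tc D κ u a) ⟨map_zero κ, fun a => by
      obtain ⟨v, hv⟩ := X.su a
      exact ⟨v, C.zero' v, hv⟩⟩ fun u u' h h' => by
    refine ⟨by rw [map_add, h.1, h'.1, add_zero], fun a => ?_⟩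
    have r1 := X.rule h.1 h'.1 (a := (1, 0)) (b := (0, 1)) (by decide) (by decide) (by decide)
      (h.2 _) (h'.2 _)
    have r2 := X.rule h.1 h'.1 (a := (1, 0)) (b := (1, 1)) (by decide) (by decide) (by decide)
      (h.2 _) (h'.2 _)
    have r3 := X.rule h.1 h'.1 (a := (0, 1)) (b := (1, 1)) (by decide) (by decide) (by decide)
      (h.2 _) (h'.2 _)
    rcases r1 with r1 | r1
    · rcases r3 with r3 | r3
      · exact Tc.all r1 r3 (by decide) (by decide) (by decide) a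
      · exact Tc.all r1 r3 (by decide) (by decide) (by decide) a
    · rcases r2 with r2 | r2
      · exact Tc.all r1 r2 (by decide) (by decide) (by decide) a
      · exact Tc.all r1 r2 (by decide) (by decide) (by decide) a

theorem mem_Y {u : V} : u ∈ X.Y ↔ κ u = 0 ∧ ∀ a, Tc D κ u a := Iff.rfl

theorem mem_of {u : V} (ku : κ u = 0) {a b : K} (ha : a ≠ 0) (hb : b ≠ 0) (hab : a ≠ b)
    (h : Tc D κ u a) (h' : Tc D κ u b) : u ∈ X.Y :=
  ⟨ku, fun x => Tc.all h h' ha hb hab x⟩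

/-- the colour is periodic -/
theorem per {u h : V} {a : K} (ku : κ u = 0) (hh : h ∈ X.Y) (ha : a ≠ 0) (hu : Tc D κ u a) :
    Tc D κ (u + h) a := by
  obtain ⟨b, hb, hba⟩ := k_other a
  by_contra hcon
  have r1 := (X.rule ku hh.1 ha hb hba.symm hu (hh.2 b)).resolve_left hcon
  have r2 := (X.rule ku hh.1 ha (b := a + b) (k_add_ne hba.symm)
    (fun e => k_add_ne_left hb e.symm) hu (hh.2 _)).resolve_left hcon
  apply hcon
  have r3 := r2.add r1
  rwa [add_assoc, k_self, add_zero] at r3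

/-- elements of the kernel outside `Y` have at most one colour -/
theorem uniq {u : V} (ku : κ u = 0) (hu : u ∉ X.Y) {a b : K} (ha : a ≠ 0) (hb : b ≠ 0)
    (h : Tc D κ u a) (h' : Tc D κ u b) : a = b := by
  by_contra hab
  exact hu (X.mem_of ku ha hb hab h h')

/-- no rainbow -/
theorem nr {u u' h : V} {a b e : K} (ku : κ u = 0) (ku' : κ u' = 0) (hh : h ∈ X.Y)
    (ha : a ≠ 0) (hb : b ≠ 0) (he0 : e ≠ 0) (hab : a ≠ b) (hea : e ≠ a) (heb : e ≠ b)
    (h1 : u ∈ X.Y ∨ Tc D κ u a) (h2 : u' ∈ X.Y ∨ Tc D κ u' b)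
    (h3 : Tc D κ (u + u' + h) e) : u ∈ X.Y ∧ u' ∈ X.Y := by
  have kh : κ h = 0 := hh.1
  have h4 : Tc D κ (u + u') e := by
    have := X.per (by rw [map_add, map_add, ku, ku', kh]; simp) hh he0 h3
    rwa [add_assoc, ZModModule.add_self, add_zero] at this
  by_cases hu : u ∈ X.Y
  · refine ⟨hu, ?_⟩
    by_contra hu'
    have h5 := h2.resolve_left hu'
    have h6 : Tc D κ u' e := by
      have := X.per (by rw [map_add, ku, ku', add_zero]) hu he0 h4
      rwa [show u + u' + u = u' from eo (by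
        abel_nf <;> simp only [ch2, ch3, ch4, add_zero, zero_add])] at this
    exact heb (X.uniq ku' hu' he0 hb h6 h5)
  · have h5 := h1.resolve_left hu
    exfalso
    by_cases hu' : u' ∈ X.Y
    · have h6 : Tc D κ u e := by
        have := X.per (by rw [map_add, ku, ku', add_zero]) hu' he0 h4
        rwa [add_assoc, ZModModule.add_self, add_zero] at this
      exact hea (X.uniq ku hu he0 ha h6 h5)
    · have h6 := h2.resolve_left hu'
      -- `u + u' ∉ Y`
      have h7 : u + u' ∉ X.Y := by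
        intro h8
        have h9 : Tc D κ u' a := by
          have := X.per ku h8 ha h5
          rwa [← add_assoc, ZModModule.add_self, zero_add] at this
        exact hab (X.uniq ku' hu' ha hb h9 h6)
      have k0 : κ (u + u') = 0 := by rw [map_add, ku, ku', add_zero]
      rcases X.rule ku ku' ha hb hab h5 h6 with h8 | h8
      · exact hea (X.uniq k0 h7 he0 ha h4 h8)
      · exact heb (X.uniq k0 h7 he0 hb h4 h8)

/-- (2), **VSIG** for `Y` -/
theorem vs {c : Q} (av : ∀ v, Sg D c v → κ v ≠ 0) {s s' t : V} (hs' : Sg D c s')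
    (hh : s + s' ∈ X.Y) (ht : D.q s t = c) : ∃ t', D.q s' t' = c ∧ t + t' ∈ X.Y := by
  have hs : Sg D c s := ⟨t, ht⟩
  have st := Sg.right ht
  have ct := cls_nb X.he av ht
  have ks : κ s = κ s' := by
    have := hh.1
    rw [map_add] at this
    exact k_eq this
  have cs := av s hs
  -- `r = s + t`
  have hr : D.q s (t + s) = c := qa ht (C.self X.he s)
  have hr' : D.q t (s + t) = c := qa (by rw [D.symm]; exact ht) (C.self X.he t)
  have kr : κ (t + s) = κ s + κ t := by rw [map_add, add_comm]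
  obtain ⟨r1, a1, a2⟩ := hs'.common st
  obtain ⟨t1, b1, b2⟩ := hs'.common (Sg.right hr)
  have c1 := cls_nb X.he av a1
  have c2 := cls_nb X.he av a2
  have c3 := cls_nb X.he av b1
  have c4 := cls_nb X.he av b2
  rw [← ks] at c1 c3
  rw [kr] at c4
  have kr1 : κ r1 = κ s + κ t := k_third cs ct.1 ct.2.symm _ c1.1 c1.2 c2.2
  have kt1 : κ t1 = κ t := by
    have := k_third cs (k_add_ne ct.2.symm) (fun e => k_add_ne_left ct.1 e.symm) _ c3.1 c3.2 c4.2
    rwa [← add_assoc, k_self, zero_add] at this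
  -- `w = r + r1 ∈ U_t`, `w' = t + t1 ∈ U_r`
  have w1 : C D t (s + t + r1) := q_eq_iff.1 (hr'.trans a2.symm)
  have hrt : D.q (t + s) t = c := by rw [D.symm, add_comm t s]; exact hr'
  have w2 : C D (t + s) (t + t1) := q_eq_iff.1 (hrt.trans b2.symm)
  have kw1 : κ (s + t + r1) = 0 := by rw [map_add, map_add, kr1, k_self]
  have kw2 : κ (t + t1) = 0 := by rw [map_add, kt1, k_self]
  -- `r1` and `s' + t1` are neighbours of `s'`
  have b3 : D.q s' (t1 + s') = c := qa b1 (C.self X.he s')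
  have w3 : C D s' (r1 + (t1 + s')) := q_eq_iff.1 (a1.trans b3.symm)
  have w4 : C D s' (s + t + r1 + (t + t1) + (s + s')) := w3.of_eq rfl (eo (by
    abel_nf <;> simp only [ch2, ch3, ch4, add_zero, zero_add]))
  refine ⟨t1, b1, ?_⟩
  refine (X.nr (a := κ t) (b := κ s + κ t) (e := κ s) kw1 kw2 hh ct.1 (k_add_ne ct.2.symm) cs
    ?_ ct.2.symm ?_ (Or.inr ⟨t, w1.symm, rfl⟩) (Or.inr ⟨t + s, w2.symm, kr⟩)
    ⟨s', w4.symm, ks.symm⟩).2
  · exact fun e => k_add_ne_right cs e.symm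
  · exact fun e => k_add_ne_left ct.1 e.symm

/-- the hypotheses of the rank parity theorem hold for the product of two elements of different
classes -/
theorem toRP {s t : V} (hs : κ s ≠ 0) (ht : κ t ≠ 0) (hst : κ s ≠ κ t) :
    RP D (D.q s t) κ X.Y := by
  have av : ∀ v, Sg D (D.q s t) v → κ v ≠ 0 := fun v hv => X.av hs ht hst hv
  refine ⟨X.he, av, fun y hy => hy.1, ?_, fun s s' t hs' h1 h2 => X.vs av hs' h1 h2⟩
  intro s1 t1 a b h1 h2 h3 ha hb ka kb hab
  by_contra hcon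
  have h4 : Tc D κ a (κ s1) := ⟨s1, ha.symm, rfl⟩
  have h5 : Tc D κ b (κ t1) := ⟨t1, hb.symm, rfl⟩
  have h6 : Tc D κ b (κ s1) := by
    have := X.per ka hab (av _ h1) h4
    rwa [← add_assoc, ZModModule.add_self, zero_add] at this
  have h7 : b ∉ X.Y := by
    intro hb'
    apply hcon
    have := X.Y.add_mem hab hb'
    rwa [add_assoc, ZModModule.add_self, add_zero] at this
  exact h3 (X.uniq kb h7 (av _ h1) (av _ h2) h6 h5)

/-- (5): one colour -/
theorem one_color [Finite V] : ∃ i : K, i ≠ 0 ∧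
    ∀ u a, κ u = 0 → u ∉ X.Y → a ≠ 0 → Tc D κ u a → a = i := by
  by_cases h : ∃ u a, κ u = 0 ∧ u ∉ X.Y ∧ a ≠ 0 ∧ Tc D κ u a
  · obtain ⟨u, a, h1, h2, h3, h4⟩ := h
    refine ⟨a, h3, fun u' b g1 g2 g3 g4 => ?_⟩
    by_contra hba
    obtain ⟨s, h5, h6⟩ := h4
    obtain ⟨t, g5, g6⟩ := g4
    have R := X.toRP (s := s) (t := t) (by rwa [h6]) (by rwa [g6])
      (by rw [h6, g6]; exact fun e => hba e.symm)
    obtain ⟨i, -, hi, -⟩ := R.main (s0 := s) ⟨t, rfl⟩
    by_cases hai : a = i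
    · exact g2 (hi t u' (Sg.right rfl) (by rw [g6, ← hai]; exact hba) g5.symm g1)
    · exact h2 (hi s u ⟨t, rfl⟩ (by rwa [h6]) h5.symm h1)
  · refine ⟨(1, 0), by decide, fun u a h1 h2 h3 h4 => ?_⟩
    exact absurd ⟨u, a, h1, h2, h3, h4⟩ h

end CO

/-- the conclusion of Theorem COLOR: a hyperplane `G = ker k` and `Y < G` -/
structure GY (D : QData V Q) (k : Module.Dual (ZMod 2) V) (Y : Submodule (ZMod 2) V) : Prop where
  he : D.e = 0
  k1 : ∃ v, k v = 1
  ky : ∀ y ∈ Y, k y = 0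
  out : ∀ v w, k v = 1 → C D v w → k w = 0 → w ∈ Y
  inn : ∀ v w, k v = 0 → v ∉ Y → C D v w → k w = 0
  codim : ∃ l : Module.Dual (ZMod 2) V, (∀ y ∈ Y, l y = 0) ∧ (∃ v, l v = 1) ∧ ∃ v, k v + l v = 1
  full : ∀ h ∈ Y, ∀ w, ∃ y ∈ Y, C D h (w + y)

/-- the alternating form on `K` -/
def om (i : K) : K →ₗ[ZMod 2] ZMod 2 :=
  i.1 • LinearMap.snd (ZMod 2) (ZMod 2) (ZMod 2) + i.2 • LinearMap.fst (ZMod 2) (ZMod 2) (ZMod 2)

theorem om_apply (i x : K) : om i x = i.1 * x.2 + i.2 * x.1 := rfl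

theorem om_zero {i : K} (hi : i ≠ 0) {x : K} (h : om i x = 0) : x = 0 ∨ x = i := by
  rw [om_apply] at h
  revert i x; decide

theorem om_self (i : K) : om i i = 0 := by
  rw [om_apply]
  revert i; decide

theorem om_one {i : K} (hi : i ≠ 0) : ∃ x, om i x = 1 := by
  have : ∀ i : K, i ≠ 0 → ∃ x : K, i.1 * x.2 + i.2 * x.1 = 1 := by decide
  exact this i hi

theorem pr_apply (k l : Module.Dual (ZMod 2) V) (v : V) : (k.prod l) v = (k v, l v) := rfl

theorem zm_ne {a : ZMod 2} (h : a ≠ 0) : a = 1 := by revert a; decide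

theorem surj3 {f : V →ₗ[ZMod 2] K} (h1 : ∃ v, (f v).1 = 1) (h2 : ∃ v, (f v).2 = 1)
    (h3 : ∃ v, (f v).1 + (f v).2 = 1) (a : K) : ∃ v, f v = a := by
  obtain ⟨v, hv⟩ := h1
  obtain ⟨w, hw⟩ := h2
  obtain ⟨x, hx⟩ := h3
  have key : ∀ A B E a : K, A.1 = 1 → B.2 = 1 → E.1 + E.2 = 1 →
      ∃ e1 e2 e3 : ZMod 2, e1 • A + e2 • B + e3 • E = a := by decide
  obtain ⟨e1, e2, e3, h⟩ := key (f v) (f w) (f x) a hv hw hx
  exact ⟨e1 • v + e2 • w + e3 • x, by rw [map_add, map_add, map_smul, map_smul, map_smul, h]⟩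

/-- (ii) of Theorem COLOR -/
theorem CO.split [Finite V] {κ : V →ₗ[ZMod 2] K} (X : CO D κ) : ∃ k : Module.Dual (ZMod 2) V,
    (∃ v, k v = 1) ∧ (∀ y ∈ X.Y, k y = 0) ∧ (∀ v w, k v = 1 → C D v w → k w = 0 → w ∈ X.Y) ∧
    (∀ v w, k v = 0 → v ∉ X.Y → C D v w → k w = 0) ∧
    (∃ l : Module.Dual (ZMod 2) V, (∀ y ∈ X.Y, l y = 0) ∧ (∃ v, l v = 1) ∧
      ∃ v, k v + l v = 1) ∧ (∀ h ∈ X.Y, ∃ w, C D h w ∧ k w = 1) := by
  obtain ⟨i, hi, h⟩ := X.one_color
  have kz : ∀ v, κ v = 0 → om i (κ v) = 0 := fun v hv => by rw [hv, map_zero]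
  refine ⟨(om i).comp κ, ?_, ?_, ?_, ?_, ?_, ?_⟩
  · obtain ⟨x, hx⟩ := om_one hi
    obtain ⟨v, hv⟩ := X.su x
    exact ⟨v, by rw [LinearMap.comp_apply, hv, hx]⟩
  · intro y hy
    rw [LinearMap.comp_apply]
    exact kz y hy.1
  · intro v w hv hvw hw
    rw [LinearMap.comp_apply] at hv hw
    have kv0 : κ v ≠ 0 := fun e => by rw [e, map_zero] at hv; exact absurd hv (by decide)
    have kvi : κ v ≠ i := fun e => by rw [e, om_self] at hv; exact absurd hv (by decide)
    -- `κ w = 0`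
    have kw : κ w = 0 := by
      rcases X.hC v w kv0 hvw with h1 | h1
      · exact h1
      · rw [h1, hv] at hw; exact absurd hw (by decide)
    by_contra hcon
    exact kvi (h w (κ v) kw hcon kv0 ⟨v, hvw.symm, rfl⟩)
  · intro v w hv hvY hvw
    rw [LinearMap.comp_apply] at hv ⊢
    rcases om_zero hi hv with h1 | h1
    · by_cases h2 : κ w = 0
      · rw [h2, map_zero]
      · rw [h v (κ w) h1 hvY h2 ⟨w, hvw, rfl⟩, om_self]
    · rcases X.hC v w (by rwa [h1]) hvw with h2 | h2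
      · rw [h2, map_zero]
      · rw [h2, h1, om_self]
  · -- another functional vanishing on `ker κ`
    obtain ⟨j, hj, hji⟩ := k_other i
    have key : ∀ i j : K, i ≠ 0 → j ≠ 0 → j ≠ i → (∃ x : K, j.1 * x.2 + j.2 * x.1 = 1) ∧
        ∃ x : K, i.1 * x.2 + i.2 * x.1 + (j.1 * x.2 + j.2 * x.1) = 1 := by decide
    obtain ⟨⟨x, hx⟩, x', hx'⟩ := key i j hi hj hji
    refine ⟨(om j).comp κ, ?_, ?_, ?_⟩
    · intro y hy
      rw [LinearMap.comp_apply, hy.1, map_zero]
    · obtain ⟨v, hv⟩ := X.su x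
      exact ⟨v, by rw [LinearMap.comp_apply, hv]; exact hx⟩
    · obtain ⟨v, hv⟩ := X.su x'
      exact ⟨v, by rw [LinearMap.comp_apply, LinearMap.comp_apply, hv]; exact hx'⟩
  · intro y hy
    obtain ⟨x, hx⟩ := om_one hi
    obtain ⟨w, h1, h2⟩ := hy.2 x
    exact ⟨w, h1, by rw [LinearMap.comp_apply, h2, hx]⟩

/-- **Theorem COLOR** -/
theorem CO.color [Finite V] {κ0 : V →ₗ[ZMod 2] K} (X0 : CO D κ0) :
    ∃ (k : Module.Dual (ZMod 2) V) (Y : Submodule (ZMod 2) V), GY D k Y := by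
  classical
  have ex : ∃ n : ℕ, ∃ (κ : V →ₗ[ZMod 2] K) (X : CO D κ), Nat.card X.Y = n :=
    ⟨_, κ0, X0, rfl⟩
  obtain ⟨κ, X, hn⟩ := Nat.find_spec ex
  have hmin : ∀ (κ' : V →ₗ[ZMod 2] K) (X' : CO D κ'), Nat.card X.Y ≤ Nat.card X'.Y := by
    intro κ' X'
    rw [hn]
    exact Nat.find_min' ex ⟨κ', X', rfl⟩
  obtain ⟨k, k1, ky, out, inn, cod, kh⟩ := X.split
  refine ⟨k, X.Y, X.he, k1, ky, out, inn, cod, ?_⟩
  -- the minimality
  have key : ∀ l : Module.Dual (ZMod 2) V, (∀ y ∈ X.Y, l y = 0) → (∃ v, l v = 1) →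
      (∃ v, k v + l v = 1) → ∀ h ∈ X.Y, ∃ w, C D h w ∧ l w = 1 := by
    intro l ly l1 kl1 h hh
    have X' : CO D (k.prod l) := by
      refine ⟨X.he, ?_, surj3 k1 l1 kl1⟩
      intro v w hv hvw
      simp only [pr_apply] at hv ⊢
      by_cases h1 : k v = 0
      · -- `l v = 1`
        have h2 : l v = 1 := by
          refine zm_ne fun h3 => hv ?_
          rw [h1, h3]; rfl
        have h3 : v ∉ X.Y := fun h4 => by
          rw [ly v h4] at h2; exact absurd h2 (by decide)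
        have h4 := inn v w h1 h3 hvw
        rw [h4, h1, h2]
        by_cases h5 : l w = 0
        · left; rw [h5]; rfl
        · right; rw [zm_ne h5]
      · have h1' := zm_ne h1
        by_cases h2 : k w = 0
        · have h3 := out v w h1' hvw h2
          left
          rw [h2, ly w h3]; rfl
        · right
          have h3 : C D v (w + v) := hvw.add (C.self X.he v)
          have h4 := out v (w + v) h1' h3 (by rw [map_add, zm_ne h2, h1']; decide)
          have h5 := ky _ h4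
          have h6 := ly _ h4
          rw [map_add] at h5 h6
          have e1 : ∀ a b : ZMod 2, a + b = 0 → a = b := by decide
          rw [e1 _ _ h5, e1 _ _ h6]
    -- `Y' ≤ Y`
    have hle : X'.Y ≤ X.Y := by
      intro u hu
      by_contra hcon
      obtain ⟨h1, h2⟩ := hu
      rw [pr_apply] at h1
      obtain ⟨w, h3, h4⟩ := h2 (1, 0)
      rw [pr_apply] at h4
      have h5 : k u = 0 := congrArg Prod.fst h1
      have h6 : k w = 1 := congrArg Prod.fst h4
      rw [inn u w h5 hcon h3] at h6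
      exact absurd h6 (by decide)
    have heq : X'.Y = X.Y := by
      refine SetLike.coe_injective (Set.eq_of_subset_of_ncard_le hle ?_ (Set.toFinite _))
      exact hmin _ X'
    rw [← heq] at hh
    obtain ⟨w, h3, h4⟩ := hh.2 (0, 1)
    exact ⟨w, h3, congrArg Prod.snd h4⟩
  intro h hh w
  -- `V_h + Y = V`
  by_contra hcon
  have h1 : w ∉ D.ann h ⊔ X.Y := by
    intro h2
    obtain ⟨a, ha, y, hy, e⟩ := Submodule.mem_sup.1 h2
    refine hcon ⟨y, hy, ?_⟩
    have : C D h a := ha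
    refine this.of_eq rfl ?_
    rw [← e, add_assoc, ZModModule.add_self, add_zero]
  obtain ⟨l, l1, l2⟩ := Pool.Agent.Helper58.PLine.exists_functional h1
  have l3 : ∀ y ∈ X.Y, l y = 0 := fun y hy => l2 y (Submodule.mem_sup_right hy)
  have l4 : ∀ v, C D h v → l v = 0 := fun v hv => l2 v (Submodule.mem_sup_left hv)
  obtain ⟨v, hv, kv⟩ := kh h hh
  obtain ⟨x, hx, lx⟩ := key l l3 ⟨w, l1⟩ ⟨v, by rw [kv, l4 v hv, add_zero]⟩ h hh
  rw [l4 x hx] at lx
  exact absurd lx (by decide)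

/-- `Y = 0` is impossible -/
theorem GY.ne_bot [Finite V] {k : Module.Dual (ZMod 2) V} {Y : Submodule (ZMod 2) V}
    (X : GY D k Y) (k4 : ∀ z, z ≠ 0 → ETCD2.K4At D z) : Y ≠ ⊥ := by
  rintro rfl
  obtain ⟨l, -, l1, l2⟩ := X.codim
  have su := surj3 (f := k.prod l) X.k1 l1 l2
  -- elements outside `G` are rigid
  have rg : ∀ v w, k v = 1 → C D v w → w = 0 ∨ w = v := by
    intro v w hv hvw
    by_cases h : k w = 0
    · left
      exact (Submodule.mem_bot _).1 (X.out v w hv hvw h)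
    · right
      have h2 := X.out v (w + v) hv (hvw.add (C.self X.he v)) (by
        rw [map_add, hv, zm_ne h]; decide)
      exact eo ((Submodule.mem_bot _).1 h2)
  obtain ⟨s, hs⟩ := su (1, 0)
  obtain ⟨t, ht⟩ := su (1, 1)
  have hs1 : k s = 1 := congrArg Prod.fst hs
  have ht1 : k t = 1 := congrArg Prod.fst ht
  have hs2 : l s = 0 := congrArg Prod.snd hs
  have ht2 : l t = 1 := congrArg Prod.snd ht
  have X' : CO D (k.prod l) := by
    refine ⟨X.he, ?_, su⟩
    intro v w hv hvw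
    simp only [pr_apply] at hv ⊢
    by_cases h1 : k v = 0
    · have h2 : l v = 1 := by
        refine zm_ne fun h3 => hv ?_
        rw [h1, h3]; rfl
      have h3 : v ∉ (⊥ : Submodule (ZMod 2) V) := fun h4 => by
        rw [(Submodule.mem_bot _).1 h4, map_zero] at h2; exact absurd h2 (by decide)
      have h4 := X.inn v w h1 h3 hvw
      rw [h4, h1, h2]
      by_cases h5 : l w = 0
      · left; rw [h5]; rfl
      · right; rw [zm_ne h5]
    · rcases rg v w (zm_ne h1) hvw with rfl | rfl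
      · left; rw [map_zero, map_zero]; rfl
      · right; rfl
  have ks0 : (k.prod l) s ≠ 0 := by rw [hs]; decide
  have kt0 : (k.prod l) t ≠ 0 := by rw [ht]; decide
  have kst : (k.prod l) s ≠ (k.prod l) t := by rw [hs, ht]; decide
  refine false_of_H0 X.he (c := D.q s t) ?_ k4 (κ := k.prod l) ⟨s, t, rfl⟩
    (fun v hv => X'.av ks0 kt0 kst hv) ?_
  · intro e
    rcases X'.hC s t ks0 e with h | h
    · exact kt0 h
    · exact kst h.symm
  · intro s1 t1 u h1 h2 h3 h4 h5 h6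
    by_cases h7 : k s1 = 1
    · rcases rg s1 u h7 h4 with h8 | h8
      · exact h8
      · rw [h8] at h6; exact absurd h6 (X'.av ks0 kt0 kst h1)
    · by_cases h8 : k t1 = 1
      · rcases rg t1 u h8 h5 with h9 | h9
        · exact h9
        · rw [h9] at h6; exact absurd h6 (X'.av ks0 kt0 kst h2)
      · exfalso
        have a1 := X'.av ks0 kt0 kst h1
        have a2 := X'.av ks0 kt0 kst h2
        simp only [pr_apply] at a1 a2 h3
        have e0 : ∀ a : ZMod 2, a ≠ 1 → a = 0 := by decide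
        rw [e0 _ h7] at a1 h3
        rw [e0 _ h8] at a2 h3
        have b1 : l s1 = 1 := zm_ne fun e => a1 (by rw [e]; rfl)
        have b2 : l t1 = 1 := zm_ne fun e => a2 (by rw [e]; rfl)
        rw [b1, b2] at h3
        exact h3 rfl

end Pool.Agent.ETRP
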