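import Pool.Agent.ETRP.Color

/-!
**Theorem DICH** (note 2799, helper79): in the situation of Theorem COLOR, if one functional
`α ≠ 0` vanishing on `Y` is not bad, then the hyperplane `G` is linked.
-/

set_option autoImplicit false
set_option linter.unusedSimpArgs false
set_option linter.unnecessarySeqFocus false
set_option linter.unusedSectionVars false

namespace Pool.Agent.ETRP

open Pool.Agent.Helper58.PLine (QData)
open Pool.Agent.ETCP
open Pool.Agent.ETPF
open Pool.Agent.ETPN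
open Pool.Agent.ETPG
open ETC (ind ind_true ind_false ind_and ind_congr ind_nonneg ind_le sum_ind_shift sg sg_zero
  sg_one sg_add)

variable {V Q : Type} [AddCommGroup V] [Module (ZMod 2) V] {D : QData V Q}

/-- an invariant set has no Fourier coefficient at a functional which does not vanish on the
translation -/
theorem sum_sg_inv [Fintype V] {a : Module.Dual (ZMod 2) V} {P : V → Prop} {v : V}
    (hv : a v = 1) (h : ∀ u, P (u + v) ↔ P u) : ∑ u, sg (a u) * ind (P u) = 0 := by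
  have e1 : ∑ u, sg (a u) * ind (P u) = ∑ u, sg (a (u + v)) * ind (P (u + v)) :=
    (Equiv.sum_comp (Equiv.addRight v) (fun u => sg (a u) * ind (P u))).symm
  have e2 : ∑ u, sg (a (u + v)) * ind (P (u + v)) = -∑ u, sg (a u) * ind (P u) := by
    rw [← Finset.sum_neg_distrib]
    refine Finset.sum_congr rfl fun u _ => ?_
    rw [ind_congr (h u), map_add, hv, sg_add, sg_one]
    ring
  rw [e2] at e1
  omega

/-- a set which is empty or invariant -/
theorem sum_sg_zero [Fintype V] {a : Module.Dual (ZMod 2) V} {P : V → Prop} {v : V}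
    (hv : a v = 1) (h : ∀ u, P u → P (u + v)) : ∑ u, sg (a u) * ind (P u) = 0 := by
  refine sum_sg_inv hv fun u => ⟨fun h1 => ?_, h u⟩
  have h2 := h _ h1
  rwa [add_assoc, ZModModule.add_self, add_zero] at h2

/-- `α` is not bad: no `V_z ∩ V_b` with `z, b ∈ Y` is contained in its kernel -/
def NB (D : QData V Q) (Y : Submodule (ZMod 2) V) (a : Module.Dual (ZMod 2) V) : Prop :=
  ∀ z ∈ Y, ∀ b ∈ Y, ∃ v, C D z v ∧ C D b v ∧ a v = 1

section cnt

variable (D) in
/-- `|Y_u|` -/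
noncomputable def yY [Fintype V] (Y : Submodule (ZMod 2) V) (u : V) : ℤ :=
  ∑ y, ind (y ∈ Y ∧ C D u y)

variable (D) in
/-- `|Y_u ∩ Y_v|` -/
noncomputable def y2 [Fintype V] (Y : Submodule (ZMod 2) V) (u v : V) : ℤ :=
  ∑ y, ind (y ∈ Y ∧ C D u y ∧ C D v y)

/-- `a, b ∈ Y` and `s a = u b` -/
def Pr (D : QData V Q) (Y : Submodule (ZMod 2) V) (s u a b : V) : Prop :=
  a ∈ Y ∧ b ∈ Y ∧ D.q s a = D.q u b

/-- `a, b ∈ Y` and `s a = u b` is linked through `Y` -/
def Lr (D : QData V Q) (Y : Submodule (ZMod 2) V) (s u a b : V) : Prop :=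
  a ∈ Y ∧ b ∈ Y ∧ ∃ r, r ∈ Y ∧ C D s (a + r) ∧ C D u (b + r) ∧ C D (s + u) r

variable {Y : Submodule (ZMod 2) V}

theorem Lr.pr {s u a b : V} (h : Lr D Y s u a b) : Pr D Y s u a b := by
  obtain ⟨h1, h2, r, h3, h4, h5, h6⟩ := h
  refine ⟨h1, h2, ?_⟩
  rw [q_eq_iff.2 h4, q_eq_iff.2 h5, q_eq'_iff.2 h6]

theorem yY_pos [Fintype V] (u : V) : 0 < yY D Y u :=
  sum_ind_pos (v := (0 : V)) ⟨Y.zero_mem, C.zero u⟩

theorem y2_pos [Fintype V] (u v : V) : 0 < y2 D Y u v :=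
  sum_ind_pos (v := (0 : V)) ⟨Y.zero_mem, C.zero u, C.zero v⟩

theorem add_swap3 (a r r0 : V) : a + (r + r0) = r + (a + r0) := by abel

/-- the number of linked pairs -/
theorem lr_count [Fintype V] (s u : V) :
    (∑ a, ∑ b, ind (Lr D Y s u a b)) * y2 D Y s u = yY D Y (s + u) * (yY D Y s * yY D Y u) := by
  have e1 : ∀ a b, ind (Lr D Y s u a b) * y2 D Y s u =
      ∑ r, ind ((a ∈ Y ∧ b ∈ Y) ∧ r ∈ Y ∧ C D s (a + r) ∧ C D u (b + r) ∧ C D (s + u) r) := by
    intro a b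
    by_cases h : Lr D Y s u a b
    · rw [ind_true h, one_mul]
      obtain ⟨h1, h2, r0, h3, h4, h5, h6⟩ := h
      symm
      unfold y2
      refine sum_ind_shift _ _ r0 fun r => ?_
      constructor
      · rintro ⟨-, g3, g4, g5, g6⟩
        refine ⟨(mem_shift' h3).1 g3, ?_, ?_⟩
        · rw [add_swap3] at g4
          exact (C_shift h4).1 g4
        · rw [add_swap3] at g5
          exact (C_shift h5).1 g5
      · rintro ⟨g1, g2, g3⟩
        refine ⟨⟨h1, h2⟩, (mem_shift' h3).2 g1, ?_, ?_, (C_shift h6).2 (g2.add' g3)⟩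
        · rw [add_swap3]
          exact (C_shift h4).2 g2
        · rw [add_swap3]
          exact (C_shift h5).2 g3
    · rw [ind_false h, zero_mul, sum_ind_zero]
      rintro r ⟨⟨h1, h2⟩, h3, h4, h5, h6⟩
      exact h ⟨h1, h2, r, h3, h4, h5, h6⟩
  have e2 : ∀ r, ∑ a, ∑ b, ind ((a ∈ Y ∧ b ∈ Y) ∧ r ∈ Y ∧ C D s (a + r) ∧ C D u (b + r) ∧
      C D (s + u) r) = ind (r ∈ Y ∧ C D (s + u) r) * (yY D Y s * yY D Y u) := by
    intro r
    by_cases h : r ∈ Y ∧ C D (s + u) r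
    · rw [ind_true h, one_mul]
      unfold yY
      have f1 : ∑ a, ind (a ∈ Y ∧ C D s a) = ∑ a, ind (a ∈ Y ∧ C D s (a + r)) := by
        symm
        refine sum_ind_shift _ _ r fun a => ?_
        rw [mem_shift' h.1, add_assoc, ZModModule.add_self, add_zero]
      have f2 : ∑ a, ind (a ∈ Y ∧ C D u a) = ∑ a, ind (a ∈ Y ∧ C D u (a + r)) := by
        symm
        refine sum_ind_shift _ _ r fun a => ?_
        rw [mem_shift' h.1, add_assoc, ZModModule.add_self, add_zero]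
      rw [f1, f2, Finset.sum_mul_sum]
      refine Finset.sum_congr rfl fun a _ => Finset.sum_congr rfl fun b _ => ?_
      rw [← ind_and]
      refine ind_congr ⟨?_, ?_⟩
      · rintro ⟨⟨g1, g2⟩, -, g4, g5, -⟩
        exact ⟨⟨g1, g4⟩, g2, g5⟩
      · rintro ⟨⟨g1, g4⟩, g2, g5⟩
        exact ⟨⟨g1, g2⟩, h.1, g4, g5, h.2⟩
    · rw [ind_false h, zero_mul]
      refine Finset.sum_eq_zero fun a _ => Finset.sum_eq_zero fun b _ => ind_false ?_
      rintro ⟨-, g3, -, -, g6⟩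
      exact h ⟨g3, g6⟩
  rw [Finset.sum_mul]
  simp only [Finset.sum_mul, e1]
  rw [Finset.sum_congr rfl fun a _ => Finset.sum_comm, Finset.sum_comm]
  rw [Finset.sum_congr rfl fun r _ => e2 r, ← Finset.sum_mul]
  rfl

/-- `L ≤ N` -/
theorem lr_le [Fintype V] (s u : V) :
    yY D Y (s + u) * (yY D Y s * yY D Y u) ≤
      (∑ a, ∑ b, ind (Pr D Y s u a b)) * y2 D Y s u := by
  rw [← lr_count]
  refine mul_le_mul_of_nonneg_right ?_ (y2_pos s u).le
  exact Finset.sum_le_sum fun a _ => Finset.sum_le_sum fun b _ => ind_le fun h => h.pr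

/-- equality means that all pairs are linked through `Y` -/
theorem lr_eq [Fintype V] {s u : V} (h : yY D Y (s + u) * (yY D Y s * yY D Y u) =
      (∑ a, ∑ b, ind (Pr D Y s u a b)) * y2 D Y s u) {a b : V} (hab : Pr D Y s u a b) :
    Lr D Y s u a b := by
  rw [← lr_count] at h
  have h1 := mul_right_cancel₀ (y2_pos (D := D) (Y := Y) s u).ne' h
  have hle : ∀ a b, ind (Lr D Y s u a b) ≤ ind (Pr D Y s u a b) := fun a b =>
    ind_le fun h => h.pr
  have h2 := (Finset.sum_eq_sum_iff_of_le fun a _ => Finset.sum_le_sum fun b _ => hle a b).1 h1 a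
    (Finset.mem_univ _)
  have h3 := (Finset.sum_eq_sum_iff_of_le fun b _ => hle a b).1 h2 b (Finset.mem_univ _)
  rw [ind_true hab] at h3
  by_contra hcon
  rw [ind_false hcon] at h3
  exact absurd h3 (by decide)

theorem lr_of_eq [Fintype V] {s u : V} (h : ∀ a b, Pr D Y s u a b → Lr D Y s u a b) :
    yY D Y (s + u) * (yY D Y s * yY D Y u) =
      (∑ a, ∑ b, ind (Pr D Y s u a b)) * y2 D Y s u := by
  rw [← lr_count]
  congr 1
  exact Finset.sum_congr rfl fun a _ => Finset.sum_congr rfl fun b _ =>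
    ind_congr ⟨fun h => h.pr, h a b⟩

end cnt

namespace GY

variable {k : Module.Dual (ZMod 2) V} {Y : Submodule (ZMod 2) V} (X : GY D k Y)

include X

/-- `V_v ⊆ Y ∪ (v + Y)` for `v ∉ G` -/
theorem out' {v w : V} (hv : k v = 1) (h : C D v w) : w ∈ Y ∨ w + v ∈ Y := by
  by_cases h1 : k w = 0
  · exact Or.inl (X.out v w hv h h1)
  · right
    exact X.out v (w + v) hv (h.add (C.self X.he v)) (by rw [map_add, hv, zm_ne h1]; decide)

theorem nmem {v : V} (hv : k v = 1) : v ∉ Y := fun h => by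
  rw [X.ky v h] at hv; exact absurd hv (by decide)

/-- (a), (c): the only planes through `s ∉ G` with pairs which are not linked through `Y` are in
`Y ∪ (s + Y)` -/
theorem link_out {s u a b : V} (hs : k s = 1) (hu : u ∉ Y) (hsu : s + u ∉ Y)
    (h : Pr D Y s u a b) : Lr D Y s u a b := by
  obtain ⟨ha, hb, e⟩ := h
  obtain ⟨r, h1, h2⟩ := D.link s a u b e
  have c1 : C D s (a + r) := q_eq_iff.1 h1
  have c2 : C D u (b + r) := q_eq_iff.1 h2
  have c3 : C D (s + u) r := q_eq'_iff.1 (h1.symm.trans (e.trans h2))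
  refine ⟨ha, hb, r, ?_, c1, c2, c3⟩
  by_contra hr
  -- `r ∈ s + Y`
  have h3 : r + s ∈ Y := by
    rcases X.out' hs c1 with h | h
    · exact absurd ((Submodule.add_mem_iff_right Y ha).1 h) hr
    · rw [add_assoc] at h
      exact (Submodule.add_mem_iff_right Y ha).1 h
  by_cases ku : k u = 1
  · rcases X.out' ku c2 with h | h
    · exact hr ((Submodule.add_mem_iff_right Y hb).1 h)
    · rw [add_assoc] at h
      have h4 := (Submodule.add_mem_iff_right Y hb).1 h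
      apply hsu
      have := Y.add_mem h3 h4
      rwa [show r + s + (r + u) = s + u from eo (by
        abel_nf <;> simp only [ch2, ch3, ch4, add_zero, zero_add])] at this
  · have ku0 : k (s + u) = 1 := by
      rw [map_add, hs]
      have e0 : ∀ a : ZMod 2, a ≠ 1 → 1 + a = 1 := by decide
      exact e0 _ ku
    rcases X.out' ku0 c3 with h | h
    · exact hr h
    · apply hu
      have := Y.add_mem h3 h
      rwa [show r + s + (r + (s + u)) = u from eo (by
        abel_nf <;> simp only [ch2, ch3, ch4, add_zero, zero_add])] at this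

/-- (e): all pairs are linked through `Y` if `α` is not bad -/
theorem link_all [Finite V] {α : Module.Dual (ZMod 2) V} (hα : ∀ y ∈ Y, α y = 0)
    (nb : NB D Y α) {s : V} (hs : k s = 1) (hαs : α s = 0) {u a b : V}
    (h : Pr D Y s u a b) : Lr D Y s u a b := by
  classical
  have := Fintype.ofFinite V
  -- the two sums
  have s1 : ∑ u, sg (α u) * ((∑ a, ∑ b, ind (Pr D Y s u a b)) * y2 D Y s u) = 0 := by
    have e1 : ∀ u, sg (α u) * ((∑ a, ∑ b, ind (Pr D Y s u a b)) * y2 D Y s u) =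
        ∑ a, ∑ b, ∑ z, sg (α u) * ind (Pr D Y s u a b ∧ z ∈ Y ∧ C D s z ∧ C D u z) := by
      intro u
      unfold y2
      rw [Finset.sum_mul, Finset.mul_sum]
      refine Finset.sum_congr rfl fun a _ => ?_
      rw [Finset.sum_mul, Finset.mul_sum]
      refine Finset.sum_congr rfl fun b _ => ?_
      rw [Finset.mul_sum, Finset.mul_sum]
      refine Finset.sum_congr rfl fun z _ => ?_
      rw [← ind_and]
    rw [Finset.sum_congr rfl fun u _ => e1 u, Finset.sum_comm]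
    refine Finset.sum_eq_zero fun a _ => ?_
    rw [Finset.sum_comm]
    refine Finset.sum_eq_zero fun b _ => ?_
    rw [Finset.sum_comm]
    refine Finset.sum_eq_zero fun z _ => ?_
    by_cases hz : z ∈ Y
    · by_cases hb : b ∈ Y
      · obtain ⟨v, v1, v2, v3⟩ := nb z hz b hb
        refine sum_sg_zero v3 fun u => ?_
        rintro ⟨⟨g1, g2, g3⟩, g4, g5, g6⟩
        refine ⟨⟨g1, g2, ?_⟩, g4, g5, g6.add' v1.symm⟩
        rw [g3]
        exact q_eq' ((v2.symm).of_eq (eo (by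
          abel_nf <;> simp only [ch2, ch3, ch4, add_zero, zero_add])) rfl)
      · exact Finset.sum_eq_zero fun u _ => by
          rw [ind_false fun g => hb g.1.2.1, mul_zero]
    · exact Finset.sum_eq_zero fun u _ => by
        rw [ind_false fun g => hz g.2.1, mul_zero]
  have s2 : ∑ u, sg (α u) * (yY D Y (s + u) * (yY D Y s * yY D Y u)) = 0 := by
    have e1 : ∀ u, sg (α u) * (yY D Y (s + u) * (yY D Y s * yY D Y u)) =
        yY D Y s * ∑ z, ∑ b, sg (α u) * ind ((z ∈ Y ∧ C D (s + u) z) ∧ b ∈ Y ∧ C D u b) := by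
      intro u
      have e2 : yY D Y (s + u) * yY D Y u =
          ∑ z, ∑ b, ind ((z ∈ Y ∧ C D (s + u) z) ∧ b ∈ Y ∧ C D u b) := by
        unfold yY
        rw [Finset.sum_mul_sum]
        refine Finset.sum_congr rfl fun a _ => Finset.sum_congr rfl fun b _ => ?_
        rw [← ind_and]
      rw [show sg (α u) * (yY D Y (s + u) * (yY D Y s * yY D Y u)) =
        yY D Y s * (sg (α u) * (yY D Y (s + u) * yY D Y u)) from by ring, e2, Finset.mul_sum]
      congr 1
      refine Finset.sum_congr rfl fun z _ => ?_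
      rw [Finset.mul_sum]
    rw [Finset.sum_congr rfl fun u _ => e1 u, ← Finset.mul_sum, Finset.sum_comm]
    refine mul_eq_zero_of_right _ (Finset.sum_eq_zero fun z _ => ?_)
    rw [Finset.sum_comm]
    refine Finset.sum_eq_zero fun b _ => ?_
    by_cases hz : z ∈ Y
    · by_cases hb : b ∈ Y
      · obtain ⟨v, v1, v2, v3⟩ := nb z hz b hb
        refine sum_sg_zero v3 fun u => ?_
        rintro ⟨⟨g1, g2⟩, g3, g4⟩
        refine ⟨⟨g1, ?_⟩, g3, g4.add' v2.symm⟩
        rw [← add_assoc]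
        exact g2.add' v1.symm
      · exact Finset.sum_eq_zero fun u _ => by
          rw [ind_false fun g => hb g.2.1, mul_zero]
    · exact Finset.sum_eq_zero fun u _ => by
        rw [ind_false fun g => hz g.1.1, mul_zero]
  -- the difference
  let E : V → ℤ := fun u => (∑ a, ∑ b, ind (Pr D Y s u a b)) * y2 D Y s u -
    yY D Y (s + u) * (yY D Y s * yY D Y u)
  have hE0 : ∀ u, 0 ≤ E u := fun u => sub_nonneg.2 (lr_le s u)
  have hE1 : ∀ u, u ∉ Y → s + u ∉ Y → E u = 0 := fun u h1 h2 =>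
    sub_eq_zero.2 (lr_of_eq fun a b hab => X.link_out hs h1 h2 hab).symm
  have hE2 : ∑ u, E u = 0 := by
    have e3 : ∀ u, E u = sg (α u) * ((∑ a, ∑ b, ind (Pr D Y s u a b)) * y2 D Y s u) -
        sg (α u) * (yY D Y (s + u) * (yY D Y s * yY D Y u)) := by
      intro u
      rw [← mul_sub]
      by_cases h0 : α u = 0
      · rw [h0, sg_zero, one_mul]
      · have h1 : u ∉ Y := fun h => h0 (hα u h)
        have h2 : s + u ∉ Y := fun h => h0 (by
          have := hα _ h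
          rwa [map_add, hαs, zero_add] at this)
        have h3 := hE1 u h1 h2
        rw [h3]
        rw [show (∑ a, ∑ b, ind (Pr D Y s u a b)) * y2 D Y s u -
          yY D Y (s + u) * (yY D Y s * yY D Y u) = 0 from h3, mul_zero]
    rw [Finset.sum_congr rfl fun u _ => e3 u, Finset.sum_sub_distrib, s1, s2, sub_zero]
  have hE3 := (Finset.sum_eq_zero_iff_of_nonneg fun u _ => hE0 u).1 hE2 u (Finset.mem_univ _)
  exact lr_eq (sub_eq_zero.1 hE3).symm h

/-- (f) -/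
theorem meet_f [Finite V] {α : Module.Dual (ZMod 2) V} (hα : ∀ y ∈ Y, α y = 0)
    (nb : NB D Y α) {s : V} (hs : k s = 1) (hαs : α s = 0) {x h : V} (hx : x + s ∈ Y)
    (hh : h ∈ Y) : ∃ x', x' + s ∈ Y ∧ C D x x' ∧ C D x' h := by
  have kx : k x = 1 := by
    have := X.ky _ hx
    rw [map_add, hs] at this
    have e0 : ∀ a : ZMod 2, a + 1 = 0 → a = 1 := by decide
    exact e0 _ this
  have ax : α x = 0 := by
    have := hα _ hx
    rwa [map_add, hαs, add_zero] at this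
  obtain ⟨y1, hy1, c1⟩ := X.full h hh x
  have e1 : D.q x h = D.q h y1 := by rw [D.symm]; exact q_eq_iff.2 c1
  obtain ⟨-, -, r, hr, c2, c3, c4⟩ := X.link_all hα nb kx ax (u := h) (a := h) (b := y1)
    ⟨hh, hy1, e1⟩
  -- x (h + r) = 0, h (y1 + r) = 0, (x + h) r = 0
  refine ⟨x + (h + r), ?_, (C.self X.he x).add c2, ?_⟩
  · rw [show x + (h + r) + s = x + s + (h + r) from by abel]
    exact Y.add_mem hx (Y.add_mem hh hr)
  · -- `h (x + y1) = 0` and `h (y1 + r) = 0`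
    have c5 : C D h (x + y1 + (y1 + r) + h) := (c1.add c3).add (C.self X.he h)
    exact (c5.of_eq rfl (eo (by
      abel_nf <;> simp only [ch2, ch3, ch4, add_zero, zero_add]))).symm

open Matrix in
/-- (g): the trace trick -/
theorem meet_g [Finite V] {s : V}
    (hf : ∀ x h, x + s ∈ Y → h ∈ Y → ∃ x', x' + s ∈ Y ∧ C D x x' ∧ C D x' h) {h h' : V}
    (hh : h ∈ Y) (hh' : h' ∈ Y) : ∃ x, x + s ∈ Y ∧ C D x h ∧ C D x h' := by
  classical
  have := Fintype.ofFinite V
  let A : Matrix V V ℤ := fun x h => ind ((x + s ∈ Y ∧ h ∈ Y) ∧ C D x h)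
  let ZX : Matrix V V ℤ := fun x x' => ind ((x + s ∈ Y ∧ x' + s ∈ Y) ∧ C D x x')
  let ZY : Matrix V V ℤ := fun x x' => ind ((x ∈ Y ∧ x' ∈ Y) ∧ C D x x')
  have ssy : s + s ∈ Y := by rw [ZModModule.add_self]; exact Y.zero_mem
  -- `X + X = Y`
  have xx : ∀ x x', x + s ∈ Y → x' + s ∈ Y → x + x' ∈ Y := by
    intro x x' h1 h2
    have := Y.add_mem h1 h2
    rwa [show x + s + (x' + s) = x + x' from eo (by
      abel_nf <;> simp only [ch2, ch3, ch4, add_zero, zero_add])] at this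
  have nn : ∀ (x h : V), 0 ≤ A x h := fun x h => ind_nonneg _
  have AZ : A * ZY = ZX * A := by
    funext x h
    rw [Matrix.mul_apply, Matrix.mul_apply]
    have e1 : ∀ h', A x h' * ZY h' h = ind ((x + s ∈ Y ∧ h ∈ Y) ∧ h' ∈ Y ∧ C D x h' ∧ C D h' h) :=
      fun h' => by
        show ind _ * ind _ = _
        rw [← ind_and]
        exact ind_congr ⟨fun g => ⟨⟨g.1.1.1, g.2.1.2⟩, g.1.1.2, g.1.2, g.2.2⟩,
          fun g => ⟨⟨⟨g.1.1, g.2.1⟩, g.2.2.1⟩, ⟨g.2.1, g.1.2⟩, g.2.2.2⟩⟩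
    have e2 : ∀ x', ZX x x' * A x' h =
        ind ((x + s ∈ Y ∧ h ∈ Y) ∧ x' + s ∈ Y ∧ C D x x' ∧ C D x' h) :=
      fun x' => by
        show ind _ * ind _ = _
        rw [← ind_and]
        exact ind_congr ⟨fun g => ⟨⟨g.1.1.1, g.2.1.2⟩, g.1.1.2, g.1.2, g.2.2⟩,
          fun g => ⟨⟨⟨g.1.1, g.2.1⟩, g.2.2.1⟩, ⟨g.2.1, g.1.2⟩, g.2.2.2⟩⟩
    rw [Finset.sum_congr rfl fun h' _ => e1 h', Finset.sum_congr rfl fun x' _ => e2 x']
    by_cases hc : x + s ∈ Y ∧ h ∈ Y
    · obtain ⟨x0, g1, g2, g3⟩ := hf x h hc.1 hc.2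
      symm
      refine sum_ind_shift _ _ x0 fun v => ?_
      rw [mem_shift g1, C_shift g2, C_shift' g3]
    · rw [sum_ind_zero fun v hv => hc hv.1, sum_ind_zero fun v hv => hc hv.1]
  -- `ZX² ≤ A Aᵀ` and `Aᵀ A ≤ ZY²`
  have P1 : ∀ x x', (ZX * ZX) x x' ≤ (A * Aᵀ) x x' := by
    intro x x'
    rw [Matrix.mul_apply, Matrix.mul_apply]
    have e1 : ∀ z, ZX x z * ZX z x' =
        ind ((x + s ∈ Y ∧ x' + s ∈ Y) ∧ z + s ∈ Y ∧ C D x z ∧ C D x' z) := fun z => by
      show ind _ * ind _ = _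
      rw [← ind_and]
      exact ind_congr ⟨fun g => ⟨⟨g.1.1.1, g.2.1.2⟩, g.1.1.2, g.1.2, g.2.2.symm⟩,
        fun g => ⟨⟨⟨g.1.1, g.2.1⟩, g.2.2.1⟩, ⟨g.2.1, g.1.2⟩, g.2.2.2.symm⟩⟩
    have e2 : ∀ z, A x z * Aᵀ z x' =
        ind ((x + s ∈ Y ∧ x' + s ∈ Y) ∧ z ∈ Y ∧ C D x z ∧ C D x' z) := fun z => by
      show ind _ * ind _ = _
      rw [← ind_and]
      exact ind_congr ⟨fun g => ⟨⟨g.1.1.1, g.2.1.1⟩, g.1.1.2, g.1.2, g.2.2⟩,
        fun g => ⟨⟨⟨g.1.1, g.2.1⟩, g.2.2.1⟩, ⟨g.1.2, g.2.1⟩, g.2.2.2⟩⟩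
    rw [Finset.sum_congr rfl fun z _ => e1 z, Finset.sum_congr rfl fun z _ => e2 z]
    refine sum_ind_le fun v0 hv0 v => ?_
    rw [mem_shift hv0.2.1, C_shift hv0.2.2.1, C_shift hv0.2.2.2]
  have P2 : ∀ h h', (Aᵀ * A) h h' ≤ (ZY * ZY) h h' := by
    intro h h'
    rw [Matrix.mul_apply, Matrix.mul_apply]
    have e1 : ∀ z, Aᵀ h z * A z h' =
        ind ((h ∈ Y ∧ h' ∈ Y) ∧ z + s ∈ Y ∧ C D h z ∧ C D h' z) := fun z => by
      show ind _ * ind _ = _
      rw [← ind_and]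
      exact ind_congr ⟨fun g => ⟨⟨g.1.1.2, g.2.1.2⟩, g.1.1.1, g.1.2.symm, g.2.2.symm⟩,
        fun g => ⟨⟨⟨g.2.1, g.1.1⟩, g.2.2.1.symm⟩, ⟨g.2.1, g.1.2⟩, g.2.2.2.symm⟩⟩
    have e2 : ∀ z, ZY h z * ZY z h' =
        ind ((h ∈ Y ∧ h' ∈ Y) ∧ z ∈ Y ∧ C D h z ∧ C D h' z) := fun z => by
      show ind _ * ind _ = _
      rw [← ind_and]
      exact ind_congr ⟨fun g => ⟨⟨g.1.1.1, g.2.1.2⟩, g.1.1.2, g.1.2, g.2.2.symm⟩,
        fun g => ⟨⟨⟨g.1.1, g.2.1⟩, g.2.2.1⟩, ⟨g.2.1, g.1.2⟩, g.2.2.2.symm⟩⟩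
    rw [Finset.sum_congr rfl fun z _ => e1 z, Finset.sum_congr rfl fun z _ => e2 z]
    refine sum_ind_le fun v0 hv0 v => ?_
    rw [mem_shift hv0.2.1, C_shift hv0.2.2.1, C_shift hv0.2.2.2]
  have Zs : ZX * ZX * A = A * (ZY * ZY) := by
    rw [Matrix.mul_assoc, ← AZ, ← Matrix.mul_assoc, ← AZ, Matrix.mul_assoc]
  have An : ∀ x x', 0 ≤ (A * Aᵀ) x x' := by
    intro x x'
    rw [Matrix.mul_apply]
    exact Finset.sum_nonneg fun z _ => mul_nonneg (nn _ _) (nn _ _)
  have An' : ∀ x x', 0 ≤ (Aᵀ * A) x x' := by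
    intro x x'
    rw [Matrix.mul_apply]
    exact Finset.sum_nonneg fun z _ => mul_nonneg (nn _ _) (nn _ _)
  -- the traces
  have tr : ∀ M N : Matrix V V ℤ, trace (M * N) = ∑ x, ∑ x', M x x' * N x' x := by
    intro M N
    rw [Matrix.trace]
    refine Finset.sum_congr rfl fun x _ => ?_
    rw [Matrix.diag_apply, Matrix.mul_apply]
  have t1 : trace (ZX * ZX * (A * Aᵀ)) ≤ trace (A * Aᵀ * (A * Aᵀ)) := by
    rw [tr, tr]
    exact Finset.sum_le_sum fun x _ => Finset.sum_le_sum fun x' _ =>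
      mul_le_mul_of_nonneg_right (P1 x x') (An x' x)
  have t2 : trace (ZX * ZX * (A * Aᵀ)) = trace (ZY * ZY * (Aᵀ * A)) := by
    rw [← Matrix.mul_assoc, Zs, Matrix.mul_assoc, Matrix.trace_mul_comm, Matrix.mul_assoc]
  have t3 : trace (Aᵀ * A * (Aᵀ * A)) ≤ trace (ZY * ZY * (Aᵀ * A)) := by
    rw [tr, tr]
    exact Finset.sum_le_sum fun x _ => Finset.sum_le_sum fun x' _ =>
      mul_le_mul_of_nonneg_right (P2 x x') (An' x' x)
  have t4 : trace (Aᵀ * A * (Aᵀ * A)) = trace (A * Aᵀ * (A * Aᵀ)) := by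
    rw [Matrix.mul_assoc, Matrix.trace_mul_comm, Matrix.mul_assoc, Matrix.mul_assoc,
      ← Matrix.mul_assoc A Aᵀ]
  have t5 : trace (ZX * ZX * (A * Aᵀ)) = trace (A * Aᵀ * (A * Aᵀ)) :=
    le_antisymm t1 (by rw [t2, ← t4]; exact t3)
  have hPX : ZX * ZX = A * Aᵀ := by
    funext x x'
    rw [tr, tr] at t5
    have l1 : ∀ x x', (ZX * ZX) x x' * (A * Aᵀ) x' x ≤ (A * Aᵀ) x x' * (A * Aᵀ) x' x :=
      fun x x' => mul_le_mul_of_nonneg_right (P1 x x') (An x' x)
    have l2 := (Finset.sum_eq_sum_iff_of_le fun a _ => Finset.sum_le_sum fun b _ => l1 a b).1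
      t5 x (Finset.mem_univ _)
    have l3 := (Finset.sum_eq_sum_iff_of_le fun b _ => l1 x b).1 l2 x' (Finset.mem_univ _)
    by_cases hc : x + s ∈ Y ∧ x' + s ∈ Y
    · refine mul_right_cancel₀ (b := (A * Aᵀ) x' x) (ne_of_gt ?_) l3
      rw [Matrix.mul_apply]
      refine Finset.sum_pos' (fun z _ => mul_nonneg (nn _ _) (nn _ _)) ⟨0, Finset.mem_univ _, ?_⟩
      show 0 < ind _ * ind _
      rw [ind_true ⟨⟨hc.2, Y.zero_mem⟩, C.zero x'⟩, ind_true ⟨⟨hc.1, Y.zero_mem⟩, C.zero x⟩]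
      decide
    · refine le_antisymm (P1 x x') ?_
      have e0 : (A * Aᵀ) x x' = 0 := by
        rw [Matrix.mul_apply]
        refine Finset.sum_eq_zero fun z _ => ?_
        show ind _ * ind _ = 0
        rw [← ind_and]
        exact ind_false fun g => hc ⟨g.1.1.1, g.2.1.1⟩
      rw [e0, Matrix.mul_apply]
      exact Finset.sum_nonneg fun z _ => mul_nonneg (ind_nonneg _) (ind_nonneg _)
  have hA0 : A * (ZY * ZY) = A * (Aᵀ * A) := by
    rw [← Zs, hPX, Matrix.mul_assoc]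
  -- an element of `X` commuting with `h`
  obtain ⟨x0, g1, -, g2⟩ := hf s h ssy hh
  have e5 := congrFun (congrFun hA0 x0) h'
  rw [Matrix.mul_apply, Matrix.mul_apply] at e5
  have e6 := (Finset.sum_eq_sum_iff_of_le fun z _ =>
    mul_le_mul_of_nonneg_left (P2 z h') (nn x0 z)).1 e5.symm h (Finset.mem_univ _)
  have e7 : A x0 h = 1 := ind_true ⟨⟨g1, hh⟩, g2⟩
  rw [e7, one_mul, one_mul] at e6
  have e8 : 0 < (ZY * ZY) h h' := by
    rw [Matrix.mul_apply]
    refine Finset.sum_pos' (fun z _ => mul_nonneg (ind_nonneg _) (ind_nonneg _))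
      ⟨0, Finset.mem_univ _, ?_⟩
    show 0 < ind _ * ind _
    rw [ind_true ⟨⟨hh, Y.zero_mem⟩, C.zero h⟩, ind_true ⟨⟨Y.zero_mem, hh'⟩, C.zero' h'⟩]
    decide
  rw [← e6, Matrix.mul_apply] at e8
  obtain ⟨x, -, hx⟩ := Finset.exists_ne_zero_of_sum_ne_zero e8.ne'
  refine ⟨x, ?_⟩
  by_contra hcon
  apply hx
  show ind _ * ind _ = 0
  rw [← ind_and]
  exact ind_false fun g => hcon ⟨g.1.1.1, g.1.2, g.2.2⟩

/-- **Theorem DICH**, first form -/
theorem dich [Finite V] {α : Module.Dual (ZMod 2) V} (hα : ∀ y ∈ Y, α y = 0)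
    (nb : NB D Y α) {s : V} (hs : k s = 1) (hαs : α s = 0) {h h' : V} (hh : h ∈ Y)
    (hh' : h' ∈ Y) : ∃ x, x + s ∈ Y ∧ C D x h ∧ C D x h' :=
  X.meet_g (s := s) (fun _ _ h1 h2 => X.meet_f hα nb hs hαs h1 h2) hh hh'

/-- `G` is linked if `k` is not bad -/
theorem linked_of_nb (nb : NB D Y k) {a b c d : V} (ha : k a = 0) (hb : k b = 0) (hc : k c = 0)
    (hd : k d = 0) (h : D.q a b = D.q c d) : ∃ x, k x = 0 ∧ D.q a x = D.q a b ∧
      D.q c x = D.q a b := by
  obtain ⟨r, h1, h2⟩ := D.link a b c d h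
  have c1 : C D a (b + r) := q_eq_iff.1 h1
  have c2 : C D c (d + r) := q_eq_iff.1 h2
  by_cases hr : k r = 0
  · exact ⟨r, hr, h1.symm, h2.symm.trans h.symm⟩
  have hr1 := zm_ne hr
  by_cases haY : a ∈ Y
  · by_cases hcY : c ∈ Y
    · obtain ⟨v, v1, v2, v3⟩ := nb a haY c hcY
      refine ⟨r + v, by rw [map_add, hr1, v3]; decide, ?_, ?_⟩
      · rw [h1]; exact qa rfl v1
      · rw [h, h2]; exact qa rfl v2
    · exfalso
      have := X.inn c _ hc hcY c2
      rw [map_add, hd, hr1] at this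
      exact absurd this (by decide)
  · exfalso
    have := X.inn a _ ha haY c1
    rw [map_add, hb, hr1] at this
    exact absurd this (by decide)

/-- **Theorem DICH**: if one functional `α ≠ 0` vanishing on `Y` is not bad then `G = ker k` is
linked. -/
theorem linked_of_one [Finite V] {α : Module.Dual (ZMod 2) V} (hα : ∀ y ∈ Y, α y = 0)
    (nb : NB D Y α) {a b c d : V} (ha : k a = 0) (hb : k b = 0) (hc : k c = 0)
    (hd : k d = 0) (h : D.q a b = D.q c d) : ∃ x, k x = 0 ∧ D.q a x = D.q a b ∧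
      D.q c x = D.q a b := by
  refine X.linked_of_nb ?_ ha hb hc hd h
  by_cases hk : ∃ s, k s = 1 ∧ α s = 0
  · obtain ⟨s, hs, hαs⟩ := hk
    intro z hz b' hb'
    obtain ⟨x, h1, h2, h3⟩ := X.dich hα nb hs hαs hz hb'
    refine ⟨x, h2.symm, h3.symm, ?_⟩
    have := X.ky _ h1
    rw [map_add, hs] at this
    have e0 : ∀ a : ZMod 2, a + 1 = 0 → a = 1 := by decide
    exact e0 _ this
  · -- then `α = k`
    push Not at hk
    have e : α = k := by
      obtain ⟨s, hs⟩ := X.k1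
      have h1 : ∀ v, k v = 1 → α v = 1 := fun v hv => zm_ne (hk v hv)
      ext v
      by_cases hv : k v = 1
      · rw [h1 v hv, hv]
      · have e0 : ∀ a : ZMod 2, a ≠ 1 → a = 0 := by decide
        have hv0 := e0 _ hv
        have h2 := h1 (v + s) (by rw [map_add, hv0, hs, zero_add])
        rw [map_add, h1 s hs] at h2
        rw [hv0]
        have e1 : ∀ a : ZMod 2, a + 1 = 1 → a = 0 := by decide
        exact e1 _ h2
    rw [← e]
    exact nb

end GY

end Pool.Agent.ETRP
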