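import Pool.Agent.ETRP.Main

/-!
**Theorem H0** (note 2771, helper51; one-symbol version of note 2768, helper53): there is no
codimension-two subspace which contains no slot of `c` and no nonzero element commuting with slots
of `c` of two different classes.
-/

set_option autoImplicit false
set_option linter.unusedSimpArgs false
set_option linter.unnecessarySeqFocus false
set_option linter.unusedSectionVars false

namespace Pool.Agent.ETRP

open Pool.Agent.Helper58.PLine (QData)
open Pool.Agent.ETCP
open Pool.Agent.ETPF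
open Pool.Agent.ETPN

variable {V Q : Type} [AddCommGroup V] [Module (ZMod 2) V] {D : QData V Q}

/-- if one class of slots is one point then there is a contradiction -/
theorem false_of_class (he : D.e = 0) {c : Q} (cne : c ≠ D.z)
    (k4 : ∀ z, z ≠ 0 → ETCD2.K4At D z) {κ : V →ₗ[ZMod 2] K} (av : ∀ s, Sg D c s → κ s ≠ 0)
    {s0 : V} (h0 : Sg D c s0) {i : K} (hi : i ≠ 0)
    (h : ∀ s s', Sg D c s → Sg D c s' → κ s = i → κ s' = i → s + s' = 0) : False := by
  -- the point
  obtain ⟨z, hz, hzi⟩ : ∃ z, Sg D c z ∧ κ z = i := by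
    by_cases h1 : κ s0 = i
    · exact ⟨s0, h0, h1⟩
    · obtain ⟨t, h2, h3⟩ := exists_nb he av h0 hi fun h' => h1 h'.symm
      exact ⟨t, Sg.right h2, h3⟩
  refine false_of_pair cne hz (k4 z ?_) fun n hn => ?_
  · rintro rfl
    exact av 0 hz (map_zero κ)
  · by_cases h1 : κ n = i
    · left
      have h2 : n = z := eo (h n z hn hz h1 hzi)
      rw [h2]
      exact C.self he z
    · right
      obtain ⟨t, h2, h3⟩ := exists_nb he av hn hi fun h' => h1 h'.symm
      have h4 : t = z := eo (h t z (Sg.right h2) hz h3 hzi)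
      rw [h4, D.symm] at h2
      exact h2

/-- **Theorem H0**: if `κ : V → F_2²` vanishes at no slot of `c` and no nonzero `u ∈ ker κ`
commutes with two slots of `c` of different classes, there is a contradiction (with `K4At`). -/
theorem false_of_H0 [Finite V] (he : D.e = 0) {c : Q} (cne : c ≠ D.z)
    (k4 : ∀ z, z ≠ 0 → ETCD2.K4At D z) {κ : V →ₗ[ZMod 2] K} (ne : ∃ s, Sg D c s)
    (av : ∀ s, Sg D c s → κ s ≠ 0)
    (h0 : ∀ s t u, Sg D c s → Sg D c t → κ s ≠ κ t → C D s u → C D t u → κ u = 0 → u = 0) :
    False := by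
  obtain ⟨s0, hs0⟩ := ne
  have X : RP D c κ ⊥ := by
    refine ⟨he, av, ?_, ?_, ?_⟩
    · rintro y hy
      rw [(Submodule.mem_bot _).1 hy, map_zero]
    · intro s t a b hs ht hst ha hb ka kb hab
      have e : a = b := eo ((Submodule.mem_bot _).1 hab)
      subst e
      exact (Submodule.mem_bot _).2 (h0 s t a hs ht hst ha hb ka)
    · intro s s' t hs' hss ht
      have e : s = s' := eo ((Submodule.mem_bot _).1 hss)
      subst e
      exact ⟨t, ht, (Submodule.mem_bot _).2 (ZModModule.add_self t)⟩
  obtain ⟨i, hi, -, h2⟩ := X.main hs0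
  exact false_of_class he cne k4 av hs0 hi fun s s' hs hs' h3 h4 =>
    (Submodule.mem_bot _).1 (h2 s s' hs hs' h3 h4)

end Pool.Agent.ETRP
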