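import Pool.Agent.ETRP.Dich

/-!
**Theorem Λ** (notes of helper34, helper46, helper91), set-valued: in a finite linked structure
the set `Λ` of the functionals vanishing on some `V_x`, `x ≠ 0`, together with `0`, is a subspace;
if the radical is zero then every functional vanishes on some `V_x`, `x ≠ 0`.
-/

set_option autoImplicit false
set_option linter.unusedSimpArgs false
set_option linter.unnecessarySeqFocus false
set_option linter.unusedSectionVars false

namespace Pool.Agent.ETRP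

open Pool.Agent.Helper58.PLine (QData)
open Pool.Agent.ETCP
open Pool.Agent.ETPF
open Pool.Agent.ETPN
open Pool.Agent.ETPG
open ETC (ind ind_true ind_false ind_and ind_congr ind_nonneg ind_le sum_ind_shift sg sg_zero
  sg_one sg_add)

variable {V Q : Type} [AddCommGroup V] [Module (ZMod 2) V] {D : QData V Q}

/-- `α ∈ L_v`: the functional vanishes on `V_v` -/
def Ls (D : QData V Q) (v : V) (α : Module.Dual (ZMod 2) V) : Prop := ∀ w, C D v w → α w = 0

variable (D) in
/-- `{u : u b ∈ Q_s, u z = 0}` -/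
def As (s b z : V) : Submodule (ZMod 2) V :=
  mkS (fun u => (∃ a, D.q s a = D.q b u) ∧ C D z u)
    ⟨⟨0, by rw [show D.q s 0 = D.z from C.zero s, show D.q b 0 = D.z from C.zero b]⟩, C.zero z⟩
    fun u u' => by
      rintro ⟨⟨a, h1⟩, h2⟩ ⟨⟨a', h3⟩, h4⟩
      refine ⟨?_, h2.add h4⟩
      obtain ⟨x, e1, e2⟩ := D.link s a b u h1
      obtain ⟨x', e3, e4⟩ := D.link s a' b u' h3
      have c1 : C D (s + b) x := q_eq'_iff.1 (e1.symm.trans (h1.trans e2))
      have c2 : C D (s + b) x' := q_eq'_iff.1 (e3.symm.trans (h3.trans e4))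
      refine ⟨x + x', ?_⟩
      have h5 : D.q s (x + x') = D.q b (x + x') := q_eq' (c1.add c2)
      rw [h5]
      refine (q_eq ?_).symm
      have c3 : C D b (u + x) := q_eq_iff.1 e2
      have c4 : C D b (u' + x') := q_eq_iff.1 e4
      have := c3.add c4
      rwa [show u + x + (u' + x') = u + u' + (x + x') from by abel] at this

theorem mem_As {s b z u : V} : u ∈ As D s b z ↔ (∃ a, D.q s a = D.q b u) ∧ C D z u := Iff.rfl

section fin

variable [Fintype V]

theorem sum_sub_zero {a : Module.Dual (ZMod 2) V} {A : Submodule (ZMod 2) V} {v : V}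
    (hv : a v = 1) (h : v ∈ A) : ∑ u, sg (a u) * ind (u ∈ A) = 0 :=
  sum_sg_zero hv fun _ hu => A.add_mem hu h

theorem sum_sub_eq {a : Module.Dual (ZMod 2) V} {A : Submodule (ZMod 2) V}
    (h : ∀ v ∈ A, a v = 0) : ∑ u, sg (a u) * ind (u ∈ A) = ∑ u, ind (u ∈ A) := by
  refine Finset.sum_congr rfl fun u _ => ?_
  by_cases hu : u ∈ A
  · rw [h u hu, sg_zero, one_mul]
  · rw [ind_false hu, mul_zero]

theorem sum_sub_nonneg (a : Module.Dual (ZMod 2) V) (A : Submodule (ZMod 2) V) :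
    0 ≤ ∑ u, sg (a u) * ind (u ∈ A) := by
  by_cases h : ∃ v ∈ A, a v = 1
  · obtain ⟨v, h1, h2⟩ := h
    rw [sum_sub_zero h2 h1]
  · have h' : ∀ v ∈ A, a v = 0 := by
      intro v hv
      by_contra hcon
      exact h ⟨v, hv, zm_ne hcon⟩
    rw [sum_sub_eq h']
    exact Finset.sum_nonneg fun _ _ => ind_nonneg _

theorem sum_sub_pos {a : Module.Dual (ZMod 2) V} {A : Submodule (ZMod 2) V}
    (h : ∀ v ∈ A, a v = 0) : 0 < ∑ u, sg (a u) * ind (u ∈ A) := by
  rw [sum_sub_eq h]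
  exact sum_ind_pos (v := (0 : V)) A.zero_mem

/-- the identity behind the positivity -/
theorem corr (a : Module.Dual (ZMod 2) V) (s : V) :
    yY D ⊤ s * ∑ u, sg (a u) * (yY D ⊤ (s + u) * yY D ⊤ u) =
      yY D ⊤ s * ∑ z, ∑ b, ind (C D s z) * ∑ u, sg (a u) * ind (u ∈ As D s b z) := by
  have e1 : ∀ u, yY D ⊤ (s + u) * (yY D ⊤ s * yY D ⊤ u) =
      (∑ a, ∑ b, ind (Pr D ⊤ s u a b)) * y2 D ⊤ s u := by
    intro u
    refine lr_of_eq fun a b h => ?_
    obtain ⟨-, -, h1⟩ := h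
    obtain ⟨x, h2, h3⟩ := D.link s a u b h1
    exact ⟨trivial, trivial, x, trivial, q_eq_iff.1 h2, q_eq_iff.1 h3,
      q_eq'_iff.1 (h2.symm.trans (h1.trans h3))⟩
  have e2 : ∀ u b, ∑ a, ind (Pr D ⊤ s u a b) = yY D ⊤ s * ind (∃ a, D.q s a = D.q b u) := by
    intro u b
    by_cases h : ∃ a, D.q s a = D.q b u
    · rw [ind_true h, mul_one]
      obtain ⟨a0, h0⟩ := h
      unfold yY
      refine sum_ind_shift _ _ a0 fun v => ?_
      have h1 : D.q s a0 = D.q u b := by rw [h0, D.symm]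
      have h2 : D.q s (v + a0) = D.q u b ↔ C D s v := q_shift h1
      exact ⟨fun g => ⟨trivial, h2.1 g.2.2⟩, fun g => ⟨trivial, trivial, h2.2 g.2⟩⟩
    · rw [ind_false h, mul_zero]
      refine sum_ind_zero fun a ha => h ⟨a, ?_⟩
      rw [ha.2.2, D.symm]
  have e3 : ∀ u, yY D ⊤ s * (sg (a u) * (yY D ⊤ (s + u) * yY D ⊤ u)) =
      yY D ⊤ s * ∑ z, ∑ b, ind (C D s z) * (sg (a u) * ind (u ∈ As D s b z)) := by
    intro u
    rw [show yY D ⊤ s * (sg (a u) * (yY D ⊤ (s + u) * yY D ⊤ u)) =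
      sg (a u) * (yY D ⊤ (s + u) * (yY D ⊤ s * yY D ⊤ u)) from by ring, e1, Finset.sum_comm,
      Finset.sum_congr rfl fun b _ => e2 u b, ← Finset.mul_sum]
    rw [show sg (a u) * (yY D ⊤ s * (∑ b, ind (∃ a, D.q s a = D.q b u)) * y2 D ⊤ s u) =
      yY D ⊤ s * (sg (a u) * (y2 D ⊤ s u * ∑ b, ind (∃ a, D.q s a = D.q b u))) from by ring]
    congr 1
    unfold y2
    rw [Finset.sum_mul_sum, Finset.mul_sum]
    refine Finset.sum_congr rfl fun z _ => ?_
    rw [Finset.mul_sum]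
    refine Finset.sum_congr rfl fun b _ => ?_
    rw [← ind_and, mul_left_comm, ← ind_and]
    congr 1
    refine ind_congr ?_
    rw [mem_As]
    constructor
    · rintro ⟨⟨-, h1, h2⟩, h3⟩
      exact ⟨h1, h3, h2.symm⟩
    · rintro ⟨h1, h3, h2⟩
      exact ⟨⟨trivial, h1, h2.symm⟩, h3⟩
  rw [Finset.mul_sum, Finset.sum_congr rfl fun u _ => e3 u, ← Finset.mul_sum]
  congr 1
  rw [Finset.sum_comm]
  refine Finset.sum_congr rfl fun z _ => ?_
  rw [Finset.sum_comm]
  refine Finset.sum_congr rfl fun b _ => ?_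
  rw [Finset.mul_sum]

theorem corr' (a : Module.Dual (ZMod 2) V) (s : V) :
    ∑ u, sg (a u) * (yY D ⊤ (s + u) * yY D ⊤ u) =
      ∑ z, ∑ b, ind (C D s z) * ∑ u, sg (a u) * ind (u ∈ As D s b z) :=
  mul_left_cancel₀ (yY_pos (D := D) (Y := ⊤) s).ne' (corr a s)

theorem corr_nonneg (a : Module.Dual (ZMod 2) V) (s : V) :
    0 ≤ ∑ u, sg (a u) * (yY D ⊤ (s + u) * yY D ⊤ u) := by
  rw [corr']
  exact Finset.sum_nonneg fun z _ => Finset.sum_nonneg fun b _ =>
    mul_nonneg (ind_nonneg _) (sum_sub_nonneg a _)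

end fin

/-- **PREM1 implies PREM2** -/
theorem prem2 [Finite V] {α : Module.Dual (ZMod 2) V} (h : ∀ v, ¬ Ls D v α) (z b : V) :
    ∃ w, C D z w ∧ C D b w ∧ α w = 1 := by
  classical
  have := Fintype.ofFinite V
  have s1 : ∑ u, sg (α u) * yY D ⊤ u = 0 := by
    unfold yY
    simp only [Finset.mul_sum]
    rw [Finset.sum_comm]
    refine Finset.sum_eq_zero fun w _ => ?_
    have h1 := h w
    unfold Ls at h1
    push Not at h1
    obtain ⟨v, h2, h3⟩ := h1
    refine sum_sg_zero (zm_ne h3) fun u hu => ⟨trivial, hu.2.add' h2.symm⟩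
  have s2 : ∑ s, ∑ u, sg (α u) * (yY D ⊤ (s + u) * yY D ⊤ u) = 0 := by
    rw [Finset.sum_comm]
    have e1 : ∀ u, ∑ s, sg (α u) * (yY D ⊤ (s + u) * yY D ⊤ u) =
        (sg (α u) * yY D ⊤ u) * ∑ s, yY D ⊤ s := by
      intro u
      rw [← Equiv.sum_comp (Equiv.addRight u) (fun s => yY D ⊤ s), Finset.mul_sum]
      refine Finset.sum_congr rfl fun s _ => ?_
      show _ = sg (α u) * yY D ⊤ u * yY D ⊤ (s + u)
      ring
    rw [Finset.sum_congr rfl fun u _ => e1 u, ← Finset.sum_mul, s1, zero_mul]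
  have s3 := (Finset.sum_eq_zero_iff_of_nonneg fun s _ => corr_nonneg α s).1 s2 0
    (Finset.mem_univ _)
  rw [corr'] at s3
  have s4 := (Finset.sum_eq_zero_iff_of_nonneg fun z _ => Finset.sum_nonneg fun b _ =>
    mul_nonneg (ind_nonneg _) (sum_sub_nonneg α _)).1 s3 z (Finset.mem_univ _)
  have s5 := (Finset.sum_eq_zero_iff_of_nonneg fun b _ =>
    mul_nonneg (ind_nonneg _) (sum_sub_nonneg α _)).1 s4 b (Finset.mem_univ _)
  rw [ind_true (C.zero' z), one_mul] at s5
  by_contra hcon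
  refine absurd s5 (sum_sub_pos ?_).ne'
  rintro v ⟨⟨a, h1⟩, h2⟩
  by_contra h3
  refine hcon ⟨v, h2, ?_, zm_ne h3⟩
  show D.q b v = D.z
  rw [← h1]
  exact C.zero' a

/-- the functionals vanishing on some `V_v` form a subgroup -/
theorem Ls_add [Finite V] {α β : Module.Dual (ZMod 2) V} (ha : ∃ v, Ls D v α)
    (hb : ∃ v, Ls D v β) : ∃ v, Ls D v (α + β) := by
  by_contra hcon
  push Not at hcon
  obtain ⟨z, h1⟩ := ha
  obtain ⟨b, h2⟩ := hb
  obtain ⟨w, h3, h4, h5⟩ := prem2 hcon z b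
  rw [LinearMap.add_apply, h1 w h3, h2 w h4, add_zero] at h5
  exact absurd h5 (by decide)

/-- **Theorem Λ**: if the radical is zero then every functional vanishes on some `V_v` -/
theorem exists_Ls [Finite V] (hr : ∀ v, (∀ w, C D v w) → v = 0) (α : Module.Dual (ZMod 2) V) :
    ∃ v, Ls D v α := by
  -- the subspace `Λ`
  let L : Submodule (ZMod 2) (Module.Dual (ZMod 2) V) :=
    { carrier := {α | ∃ v, Ls D v α}
      zero_mem' := ⟨0, fun w _ => by rw [LinearMap.zero_apply]⟩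
      add_mem' := fun h h' => Ls_add h h'
      smul_mem' := by
        intro r α h
        rcases Pool.Agent.Helper58.PLine.zm r with rfl | rfl
        · rw [zero_smul]; exact ⟨0, fun w _ => by rw [LinearMap.zero_apply]⟩
        · rw [one_smul]; exact h }
  have hL : L = ⊤ := by
    have h1 : L.dualCoannihilator = ⊥ := by
      refine (Submodule.eq_bot_iff _).2 fun x hx => hr x fun v => ?_
      rw [Submodule.mem_dualCoannihilator] at hx
      by_contra hcon
      have hx' : x ∉ D.ann v := fun h => hcon (C.symm h)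
      obtain ⟨θ, h2, h3⟩ := Pool.Agent.Helper58.PLine.exists_functional hx'
      have h4 : θ x = 0 := hx θ ⟨v, fun w hw => h3 w hw⟩
      exact absurd (h2.symm.trans h4) (by decide)
    rw [← Subspace.dualCoannihilator_dualAnnihilator_eq (W := L), h1]
    simp
  have : α ∈ L := by rw [hL]; trivial
  have : α ∈ L := by rw [hL]; trivial
  exact this

end Pool.Agent.ETRP
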