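import Pool.Agent.ETRP.Par

/-!
**The rank parity theorem** for one symbol modulo a subspace: one of the three classes of slots is
one coset of `Y`, and `V_s ∩ ker κ ⊆ Y` for the slots of the two other classes.
-/

set_option autoImplicit false
set_option linter.unusedSimpArgs false
set_option linter.unnecessarySeqFocus false
set_option linter.unusedSectionVars false

namespace Pool.Agent.ETRP

open Pool.Agent.Helper58.PLine (QData)
open Pool.Agent.ETCP
open Pool.Agent.ETPF
open Pool.Agent.ETPN.RankParity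
open Matrix

variable {V Q : Type} [AddCommGroup V] [Module (ZMod 2) V] {D : QData V Q}

namespace RP

variable {c : Q} {κ : V →ₗ[ZMod 2] K} {Y : Submodule (ZMod 2) V} (X : RP D c κ Y)

section mat

variable [Fintype (V ⧸ Y)] [∀ a, Fintype (X.I a)] [∀ a, DecidableEq (X.I a)]

/-- adjacency matrix between two classes -/
noncomputable def M (a b : K) : Matrix (X.I a) (X.I b) ℝ := fun x y => i1 (X.Ad x.1 y.1)

/-- incidence with the annihilators -/
noncomputable def N (a : K) : Matrix (X.I a) (V ⧸ Y) ℝ := fun x w => i1 (w ∈ X.US (X.rp x))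

theorem M_tr (a b : K) : (X.M a b)ᵀ = X.M b a := by
  funext y x
  rw [Matrix.transpose_apply]
  exact i1_congr (Ad.comm X)

theorem M_row {a b : K} (hb : b ≠ 0) (hba : b ≠ a) (x : X.I a) :
    ∑ y, X.M a b x y = (Nat.card (X.US (X.rp x)) : ℝ) := by
  have h := X.row (X.rp_sg x) (b := b) hb (by rw [X.rp_cls]; exact hba)
  rw [X.rp_mk] at h
  exact h

theorem M_mul {a b e : K} (ha : a ≠ 0) (hb : b ≠ 0) (hab : a ≠ b) (he : e = a + b) (x : X.I a)
    (y : X.I b) : (X.M a e * X.M e b) x y = 1 := by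
  rw [Matrix.mul_apply, ← X.two hab he x y ha hb]
  refine Finset.sum_congr rfl fun r _ => ?_
  show i1 (X.Ad x.1 r.1) * i1 (X.Ad r.1 y.1) = _
  rw [i1_congr (Ad.comm X (x := r.1) (y := y.1))]

theorem M_gram {a b e : K} (ha : a ≠ 0) (hb : b ≠ 0) (hab : a ≠ b) (he : e = a + b) {d : ℝ}
    (hd : ∀ x : X.I a, (Nat.card (X.US (X.rp x)) : ℝ) = d) :
    X.M a b * X.M b a + X.M a e * X.M e a =
      X.N a * (X.N a)ᵀ + d • (1 : Matrix (X.I a) (X.I a) ℝ) := by
  funext x x'
  have h := X.gram ha hb hab he x x'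
  rw [Matrix.add_apply, Matrix.add_apply, Matrix.mul_apply, Matrix.mul_apply, Matrix.mul_apply,
    Matrix.smul_apply, Matrix.one_apply, smul_eq_mul]
  have e1 : (i1 (x = x') : ℝ) = if x = x' then 1 else 0 := by
    by_cases hx : x = x'
    · rw [i1_true hx, if_pos hx]
    · rw [i1_false hx, if_neg hx]
  rw [hd, e1] at h
  rw [mul_comm d]
  refine Eq.trans ?_ h
  congr 1
  · refine Finset.sum_congr rfl fun r _ => ?_
    show i1 (X.Ad x.1 r.1) * i1 (X.Ad r.1 x'.1) = _
    rw [i1_congr (Ad.comm X (x := r.1) (y := x'.1))]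
  · refine Finset.sum_congr rfl fun r _ => ?_
    show i1 (X.Ad x.1 r.1) * i1 (X.Ad r.1 x'.1) = _
    rw [i1_congr (Ad.comm X (x := r.1) (y := x'.1))]

theorem M_pos (a : K) (x : X.I a) : (0 : ℝ) < (Nat.card (X.US (X.rp x)) : ℝ) := by
  have : 0 < Nat.card (X.US (X.rp x)) := Nat.card_pos
  exact_mod_cast this

/-- the numbers of neighbours are constant on a class -/
theorem M_const {a b e : K} (ha : a ≠ 0) (hb : b ≠ 0) (hab : a ≠ b) (he : e = a + b)
    (x x' : X.I a) : Nat.card (X.US (X.rp x)) = Nat.card (X.US (X.rp x')) := by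
  have hea : e ≠ a := by rw [he]; exact k_add_ne_left hb
  have heb : e ≠ b := by rw [he]; exact k_add_ne_right ha
  have hez : e ≠ 0 := by rw [he]; exact k_add_ne hab
  have hb' : b = a + e := by rw [he, ← add_assoc, k_self, zero_add]
  have h := row_const (A := X.M a b) (B := X.M b e) (C := X.M a e)
    (fun s r => X.M_mul ha hez hea.symm hb' s r)
    (fun s t => by rw [X.M_tr]; exact X.M_mul ha hb hab he s t)
    (fun s => by rw [X.M_row hb hab.symm, X.M_row hez hea]) x x'
  rw [X.M_row hez hea, X.M_row hez hea] at h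
  exact_mod_cast h

/-- the parity theorem, in matrix form -/
theorem odd_prod {a b e : K} (ha : a ≠ 0) (hb : b ≠ 0) (hab : a ≠ b) (he : e = a + b)
    (x : X.I a) (y : X.I b) (z : X.I e) :
    Fintype.card (X.I a) = Nat.card (X.US (X.rp y)) * Nat.card (X.US (X.rp z)) ∧
    Fintype.card (X.I b) = Nat.card (X.US (X.rp x)) * Nat.card (X.US (X.rp z)) ∧
    Fintype.card (X.I e) = Nat.card (X.US (X.rp x)) * Nat.card (X.US (X.rp y)) ∧
    Odd (Fintype.card (X.I a) + Fintype.card (X.I b) + Fintype.card (X.I e)) := by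
  have hea : e ≠ a := by rw [he]; exact k_add_ne_left hb
  have heb : e ≠ b := by rw [he]; exact k_add_ne_right ha
  have hez : e ≠ 0 := by rw [he]; exact k_add_ne hab
  have hb' : b = a + e := by rw [he, ← add_assoc, k_self, zero_add]
  have ha' : a = b + e := by rw [he, add_comm a b, ← add_assoc, k_self, zero_add]
  have he' : e = b + a := by rw [he, add_comm]
  haveI : Nonempty (X.I a) := ⟨x⟩
  haveI : Nonempty (X.I b) := ⟨y⟩
  haveI : Nonempty (X.I e) := ⟨z⟩
  have ca := fun x' => X.M_const ha hb hab he x' x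
  have cb := fun y' => X.M_const hb ha hab.symm he' y' y
  have ce := fun z' => X.M_const hez ha hea (by rw [he', add_comm b a, add_comm (a + b) a,
    ← add_assoc, k_self, zero_add]) z' z
  obtain ⟨u₁, u₂, u₃, h1, h2, h3, h4, h5, h6, h7⟩ :=
    odd_card (A := X.M a b) (B := X.M b e) (C := X.M a e)
    (fun s r => X.M_mul ha hez hea.symm hb' s r)
    (fun s t => by rw [X.M_tr]; exact X.M_mul ha hb hab he s t)
    (fun t r => by rw [X.M_tr]; exact X.M_mul hb hez heb.symm ha' t r)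
    (fun s => by rw [X.M_row hb hab.symm, X.M_row hez hea])
    (fun t => by
      have h : ∀ s, X.M a b s t = X.M b a t s := fun s => by rw [← X.M_tr a b]; rfl
      rw [Finset.sum_congr rfl fun s _ => h s, X.M_row ha hab, X.M_row hez heb])
    (fun r => by
      have h : ∀ s, X.M a e s r = X.M e a r s := fun s => by rw [← X.M_tr a e]; rfl
      have h' : ∀ s, X.M b e s r = X.M e b r s := fun s => by rw [← X.M_tr b e]; rfl
      rw [Finset.sum_congr rfl fun s _ => h s, Finset.sum_congr rfl fun s _ => h' s,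
        X.M_row ha hea.symm, X.M_row hb heb.symm])
    (fun s => by rw [X.M_row hez hea]; exact X.M_pos a s)
    (fun t => by rw [X.M_row hez heb]; exact X.M_pos b t)
    (fun r => by
      have h' : ∀ s, X.M b e s r = X.M e b r s := fun s => by rw [← X.M_tr b e]; rfl
      rw [Finset.sum_congr rfl fun s _ => h' s, X.M_row hb heb.symm]; exact X.M_pos e r)
    (K₁ := X.N a) (K₂ := X.N b) (K₃ := X.N e)
    (X.M_pos a x) (X.M_pos b y) (X.M_pos e z)
    (by
      rw [X.M_tr, X.M_tr]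
      exact X.M_gram ha hb hab he fun x' => by rw [ca x'])
    (by
      rw [X.M_tr, X.M_tr]
      exact X.M_gram hb ha hab.symm he' fun x' => by rw [cb x'])
    (by
      rw [X.M_tr, X.M_tr]
      refine X.M_gram hez ha hea ?_ fun x' => by rw [ce x']
      rw [he', add_assoc, k_self, add_zero])
  have g1 : u₁ = (Nat.card (X.US (X.rp x)) : ℝ) := by rw [← h1 x, X.M_row hez hea]
  have g2 : u₂ = (Nat.card (X.US (X.rp y)) : ℝ) := by rw [← h2 y, X.M_row hez heb]
  have g3 : u₃ = (Nat.card (X.US (X.rp z)) : ℝ) := by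
    rw [← h3 z]
    have h' : ∀ s, X.M b e s z = X.M e b z s := fun s => by rw [← X.M_tr b e]; rfl
    rw [Finset.sum_congr rfl fun s _ => h' s, X.M_row hb heb.symm]
  rw [g2, g3] at h4
  rw [g1, g3] at h5
  rw [g1, g2] at h6
  exact ⟨by exact_mod_cast h4, by exact_mod_cast h5, by exact_mod_cast h6, h7⟩

end mat

/-- conclusion for one class -/
def Good (X : RP D c κ Y) (i : K) : Prop :=
  (∀ s u, Sg D c s → κ s ≠ i → C D s u → κ u = 0 → u ∈ Y) ∧
    (∀ s s', Sg D c s → Sg D c s' → κ s = i → κ s' = i → s + s' ∈ Y)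

theorem us_bot {s : V} (h : X.US s = ⊥) {u : V} (h1 : C D s u) (h2 : κ u = 0) : u ∈ Y := by
  have h3 : Y.mkQ u ∈ X.US s := (X.mem_US).2 ⟨u, h1, h2, rfl⟩
  rw [h, Submodule.mem_bot, Submodule.mkQ_apply] at h3
  exact (Submodule.Quotient.mk_eq_zero _).1 h3

/-- two classes with one neighbour each -/
theorem good_of [Fintype (V ⧸ Y)] {a b e : K} (ha : a ≠ 0) (hb : b ≠ 0) (hab : a ≠ b) (he : e = a + b)
    [Fintype (X.I a)]
    (hca : Fintype.card (X.I a) = 1) (hB : ∀ y : X.I b, X.US (X.rp y) = ⊥)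
    (hE : ∀ y : X.I e, X.US (X.rp y) = ⊥) : X.Good a := by
  have key : ∀ s u, Sg D c s → C D s u → κ u = 0 → ∀ f : K, κ s = f →
      (∀ y : X.I f, X.US (X.rp y) = ⊥) → u ∈ Y := by
    intro s u hs h1 h2 f hf hF
    -- `X.US s` only depends on `s` mod `Y`
    let y : X.I f := ⟨Y.mkQ s, by rw [X.kb_mk, hf], s, rfl, hs⟩
    have hy : X.US (X.rp y) = ⊥ := hF y
    have hm : Y.mkQ (X.rp y) = Y.mkQ s := X.rp_mk y
    obtain ⟨t, ht⟩ := hs
    have h3 : D.q s (t + u) = c := qa ht h1
    obtain ⟨t1, g1, g2⟩ := X.vs s (X.rp y) t (X.rp_sg y) (mk_eq.1 hm.symm) ht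
    obtain ⟨t2, g3, g4⟩ := X.vs s (X.rp y) (t + u) (X.rp_sg y) (mk_eq.1 hm.symm) h3
    have g5 : C D (X.rp y) (t1 + t2) := q_eq_iff.1 (g1.trans g3.symm)
    have g6 : u + (t1 + t2) ∈ Y := by
      have := Y.add_mem g2 g4
      have e1 : t + t1 + (t + u + t2) = u + (t1 + t2) + (t + t) := by abel
      rwa [e1, ZModModule.add_self, add_zero] at this
    have g7 : κ (t1 + t2) = 0 := by
      have := X.hY _ g6
      rwa [map_add, h2, zero_add] at this
    have g8 := X.us_bot hy g5 g7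
    have := Y.add_mem g6 g8
    rwa [add_assoc, ZModModule.add_self, add_zero] at this
  refine ⟨?_, ?_⟩
  · intro s u hs hsa h1 h2
    by_cases h3 : κ s = b
    · exact key s u hs h1 h2 b h3 hB
    · have h4 : κ s = e := by
        rw [he]
        exact k_third ha hb hab _ (X.av s hs) hsa h3
      exact key s u hs h1 h2 e h4 hE
  · intro s s' hs hs' h1 h2
    have h3 := Fintype.card_eq_one_iff.1 hca
    obtain ⟨x, hx⟩ := h3
    have h4 := hx ⟨Y.mkQ s, by rw [X.kb_mk, h1], s, rfl, hs⟩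
    have h5 := hx ⟨Y.mkQ s', by rw [X.kb_mk, h2], s', rfl, hs'⟩
    exact mk_eq.1 (congrArg Subtype.val (h4.trans h5.symm))

/-- **the rank parity theorem** -/
theorem main [Finite V] {s0 : V} (h0 : Sg D c s0) : ∃ i : K, i ≠ 0 ∧ X.Good i := by
  classical
  haveI : Finite (V ⧸ Y) := Finite.of_surjective _ Y.mkQ_surjective
  letI : Fintype (V ⧸ Y) := Fintype.ofFinite _
  letI : ∀ a, Fintype (X.I a) := fun a => Fintype.ofFinite _
  -- an element of each class
  have ne : ∀ b : K, b ≠ 0 → Nonempty (X.I b) := by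
    intro b hb
    by_cases h : κ s0 = b
    · exact ⟨⟨Y.mkQ s0, by rw [X.kb_mk, h], s0, rfl, h0⟩⟩
    · obtain ⟨y, h1, h2⟩ := X.exists_ad h0 hb fun h' => h h'.symm
      exact ⟨⟨y, h2, Ad.sl X h1⟩⟩
  have ha : ((1, 0) : K) ≠ 0 := by decide
  have hb : ((0, 1) : K) ≠ 0 := by decide
  have he0 : ((1, 1) : K) ≠ 0 := by decide
  have hab : ((1, 0) : K) ≠ (0, 1) := by decide
  have he : ((1, 1) : K) = (1, 0) + (0, 1) := by decide
  obtain ⟨x⟩ := ne _ ha
  obtain ⟨y⟩ := ne _ hb
  obtain ⟨z⟩ := ne _ he0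
  obtain ⟨h1, h2, h3, h4⟩ := X.odd_prod ha hb hab he x y z
  have ca := fun x' => X.M_const ha hb hab he x' x
  have cb := fun y' => X.M_const hb ha hab.symm (e := (1, 1)) (by decide) y' y
  have ce := fun z' => X.M_const he0 ha (by decide) (e := (0, 1)) (by decide) z' z
  have dich : ∀ {a : K} (w : X.I a), (∀ w' : X.I a, Nat.card (X.US (X.rp w')) =
      Nat.card (X.US (X.rp w))) → (Nat.card (X.US (X.rp w)) = 1 ∧ ∀ w' : X.I a,
        X.US (X.rp w') = ⊥) ∨ Even (Nat.card (X.US (X.rp w))) := by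
    intro a w hw
    rcases card_one_or_even (X.US (X.rp w)) with h | h
    · left
      refine ⟨h.1, fun w' => ?_⟩
      rcases card_one_or_even (X.US (X.rp w')) with h' | h'
      · exact h'.2
      · rw [hw w', h.1] at h'
        exact absurd h' (by decide)
    · right; exact h
  rcases dich x ca with ⟨ex, bx⟩ | ex <;> rcases dich y cb with ⟨ey, bY⟩ | ey <;>
    rcases dich z ce with ⟨ez, bz⟩ | ez
  · exact ⟨_, he0, X.good_of he0 ha (by decide) (e := (0, 1)) (by decide)
      (by rw [h3, ex, ey]) bx bY⟩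
  · exact ⟨_, he0, X.good_of he0 ha (by decide) (e := (0, 1)) (by decide)
      (by rw [h3, ex, ey]) bx bY⟩
  · exact ⟨_, hb, X.good_of hb ha (by decide) (e := (1, 1)) (by decide)
      (by rw [h2, ex, ez]) bx bz⟩
  · exfalso
    rw [h1, h2, h3, Nat.odd_iff] at h4
    rw [Nat.even_iff] at ey ez
    have m1 : Nat.card (X.US (X.rp y)) * Nat.card (X.US (X.rp z)) % 2 = 0 := by
      rw [Nat.mul_mod, ey, zero_mul, Nat.zero_mod]
    have m2 : Nat.card (X.US (X.rp x)) * Nat.card (X.US (X.rp z)) % 2 = 0 := by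
      rw [Nat.mul_mod, ez, mul_zero, Nat.zero_mod]
    have m3 : Nat.card (X.US (X.rp x)) * Nat.card (X.US (X.rp y)) % 2 = 0 := by
      rw [Nat.mul_mod, ey, mul_zero, Nat.zero_mod]
    omega
  · exact ⟨_, ha, X.good_of ha hb hab he (by rw [h1, ey, ez]) bY bz⟩
  · exfalso
    rw [h1, h2, h3, Nat.odd_iff] at h4
    rw [Nat.even_iff] at ex ez
    have m1 : Nat.card (X.US (X.rp y)) * Nat.card (X.US (X.rp z)) % 2 = 0 := by
      rw [Nat.mul_mod, ez, mul_zero, Nat.zero_mod]
    have m2 : Nat.card (X.US (X.rp x)) * Nat.card (X.US (X.rp z)) % 2 = 0 := by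
      rw [Nat.mul_mod, ez, mul_zero, Nat.zero_mod]
    have m3 : Nat.card (X.US (X.rp x)) * Nat.card (X.US (X.rp y)) % 2 = 0 := by
      rw [Nat.mul_mod, ex, zero_mul, Nat.zero_mod]
    omega
  · exfalso
    rw [h1, h2, h3, Nat.odd_iff] at h4
    rw [Nat.even_iff] at ex ey
    have m1 : Nat.card (X.US (X.rp y)) * Nat.card (X.US (X.rp z)) % 2 = 0 := by
      rw [Nat.mul_mod, ey, zero_mul, Nat.zero_mod]
    have m2 : Nat.card (X.US (X.rp x)) * Nat.card (X.US (X.rp z)) % 2 = 0 := by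
      rw [Nat.mul_mod, ex, zero_mul, Nat.zero_mod]
    have m3 : Nat.card (X.US (X.rp x)) * Nat.card (X.US (X.rp y)) % 2 = 0 := by
      rw [Nat.mul_mod, ex, zero_mul, Nat.zero_mod]
    omega
  · exfalso
    rw [h1, h2, h3, Nat.odd_iff] at h4
    rw [Nat.even_iff] at ex ey ez
    have m1 : Nat.card (X.US (X.rp y)) * Nat.card (X.US (X.rp z)) % 2 = 0 := by
      rw [Nat.mul_mod, ey, zero_mul, Nat.zero_mod]
    have m2 : Nat.card (X.US (X.rp x)) * Nat.card (X.US (X.rp z)) % 2 = 0 := by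
      rw [Nat.mul_mod, ex, zero_mul, Nat.zero_mod]
    have m3 : Nat.card (X.US (X.rp x)) * Nat.card (X.US (X.rp y)) % 2 = 0 := by
      rw [Nat.mul_mod, ex, zero_mul, Nat.zero_mod]
    omega

end RP

end Pool.Agent.ETRP
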