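import Pool.Agent.ETPN.HP2
import Pool.Agent.ETPN.RankParity

/-!
**Rank parity for one symbol, modulo a subspace** (notes 2768 of helper53, 2771 of helper51).

`κ : V → F_2²` is a linear map which vanishes at no slot of the symbol `c` (so the slots fall into
three classes), `Y` is a subspace of `ker κ`, elements of `V_s ∩ ker κ` and `V_t ∩ ker κ` for slots
`s`, `t` of different classes are congruent mod `Y` only if they are in `Y`, and `N_s` mod `Y` only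
depends on `s` mod `Y`.  Then one of the classes lies in one coset of `Y`, and `V_s ∩ ker κ ⊆ Y`
for the slots `s` of the two other classes.
-/

set_option autoImplicit false
set_option linter.unusedSimpArgs false
set_option linter.unnecessarySeqFocus false
set_option linter.unusedSectionVars false

namespace Pool.Agent.ETRP

open Pool.Agent.Helper58.PLine (QData)
open Pool.Agent.ETCP
open Pool.Agent.ETPF
open Pool.Agent.ETPN.RankParity

variable {V Q : Type} [AddCommGroup V] [Module (ZMod 2) V] {D : QData V Q}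

/-- the three classes are the nonzero elements of `K`, the fourth class is `0` -/
abbrev K : Type := ZMod 2 × ZMod 2

theorem k_third {a b : K} (ha : a ≠ 0) (hb : b ≠ 0) (hab : a ≠ b) (x : K) (hx : x ≠ 0)
    (hxa : x ≠ a) (hxb : x ≠ b) : x = a + b := by
  revert a b x; decide

theorem k_nb {s t v : K} (hs : s ≠ 0) (ht : t ≠ 0) (hts : t ≠ s) (h1 : t + v ≠ 0)
    (h2 : t + v ≠ s) : v = 0 ∨ v = s := by
  have key : ∀ s t v : K, (s ≠ 0 ∧ t ≠ 0 ∧ t ≠ s ∧ t + v ≠ 0 ∧ t + v ≠ s) → (v = 0 ∨ v = s) := by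
    decide
  exact key s t v ⟨hs, ht, hts, h1, h2⟩

theorem k_add_ne {a b : K} (hab : a ≠ b) : a + b ≠ 0 := by
  revert a b; decide

theorem k_add_ne_left {a b : K} (hb : b ≠ 0) : a + b ≠ a := by
  revert a b; decide

theorem k_add_ne_right {a b : K} (ha : a ≠ 0) : a + b ≠ b := by
  revert a b; decide

theorem k_eq {a b : K} (h : a + b = 0) : a = b := by
  revert a b; decide

theorem k_self (a : K) : a + a = 0 := by
  revert a; decide

/-- the hypotheses of the rank parity theorem -/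
structure RP (D : QData V Q) (c : Q) (κ : V →ₗ[ZMod 2] K) (Y : Submodule (ZMod 2) V) :
    Prop where
  he : D.e = 0
  av : ∀ s, Sg D c s → κ s ≠ 0
  hY : ∀ y ∈ Y, κ y = 0
  pr : ∀ s t a b, Sg D c s → Sg D c t → κ s ≠ κ t → C D s a → C D t b → κ a = 0 → κ b = 0 →
    a + b ∈ Y → a ∈ Y
  vs : ∀ s s' t, Sg D c s' → s + s' ∈ Y → D.q s t = c → ∃ t', D.q s' t' = c ∧ t + t' ∈ Y

/-- sums over a subtype -/
theorem sum_sub {α : Type} [Fintype α] {P : α → Prop} [Fintype {a // P a}] (f : α → ℝ) :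
    ∑ a : {a // P a}, f a.1 = ∑ a, i1 (P a) * f a := by
  classical
  have h1 : ∀ a, i1 (P a) * f a = if P a then f a else 0 := by
    intro a
    by_cases h : P a
    · rw [i1_true h, if_pos h, one_mul]
    · rw [i1_false h, if_neg h, zero_mul]
  rw [Finset.sum_congr rfl fun a _ => h1 a, ← Finset.sum_filter]
  rw [Finset.sum_subtype (p := P) (Finset.univ.filter P) (by intro x; simp) f]

theorem sum_i1_card {W : Type} [AddCommGroup W] [Module (ZMod 2) W] [Fintype W]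
    (A : Submodule (ZMod 2) W) : ∑ w, i1 (w ∈ A) = (Nat.card A : ℝ) := by
  classical
  have h1 : ∀ w, i1 (w ∈ A) = if w ∈ A then (1 : ℝ) else 0 := by
    intro w
    by_cases h : w ∈ A
    · rw [i1_true h, if_pos h]
    · rw [i1_false h, if_neg h]
  rw [Finset.sum_congr rfl fun w _ => h1 w, Finset.sum_boole, Nat.card_eq_fintype_card,
    Fintype.card_subtype]

/-- the number of elements of a finite `F_2`-space is `1` or even -/
theorem card_one_or_even {W : Type} [AddCommGroup W] [Module (ZMod 2) W] [Finite W]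
    (A : Submodule (ZMod 2) W) : (Nat.card A = 1 ∧ A = ⊥) ∨ Even (Nat.card A) := by
  by_cases h : A = ⊥
  · left
    refine ⟨?_, h⟩
    rw [h]
    exact Nat.card_unique
  · right
    have : Nat.card A = 2 ^ Module.finrank (ZMod 2) A := by
      rw [Module.natCard_eq_pow_finrank (K := ZMod 2) (V := A), Nat.card_zmod]
    rw [this]
    refine (Nat.even_pow.2 ⟨even_two, fun h0 => h ?_⟩)
    exact Submodule.finrank_eq_zero.1 h0

section nb

variable {c : Q} {κ : V →ₗ[ZMod 2] K}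

/-- the class of a neighbour -/
theorem cls_nb (he : D.e = 0) (av : ∀ s, Sg D c s → κ s ≠ 0) {s t : V} (h : D.q s t = c) :
    κ t ≠ 0 ∧ κ t ≠ κ s := by
  refine ⟨av t (Sg.right h), fun h1 => ?_⟩
  have h2 : D.q s (t + s) = c := qa h (C.self he s)
  refine av _ (Sg.right h2) ?_
  rw [map_add, h1, k_self]

/-- the class of an element which commutes with a slot -/
theorem cls_ann (he : D.e = 0) (av : ∀ s, Sg D c s → κ s ≠ 0) {s v : V} (hs : Sg D c s)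
    (h : C D s v) : κ v = 0 ∨ κ v = κ s := by
  obtain ⟨t, ht⟩ := hs
  have h1 := cls_nb he av ht
  have h2 := cls_nb he av (qa ht h)
  rw [map_add] at h2
  exact k_nb (av s ⟨t, ht⟩) h1.1 h1.2 h2.1 h2.2

/-- there is a neighbour in each of the two other classes -/
theorem exists_nb (he : D.e = 0) (av : ∀ s, Sg D c s → κ s ≠ 0) {s : V} (hs : Sg D c s) {b : K}
    (hb : b ≠ 0) (hbs : b ≠ κ s) : ∃ t, D.q s t = c ∧ κ t = b := by
  obtain ⟨t, ht⟩ := hs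
  have h1 := cls_nb he av ht
  by_cases h2 : κ t = b
  · exact ⟨t, ht, h2⟩
  · refine ⟨t + s, qa ht (C.self he s), ?_⟩
    rw [map_add]
    exact (k_third h1.1 (av s ⟨t, ht⟩) h1.2 b hb (fun h => h2 h.symm) hbs).symm

end nb

namespace RP

variable {c : Q} {κ : V →ₗ[ZMod 2] K} {Y : Submodule (ZMod 2) V}

/-- the class map on the quotient -/
def kb (X : RP D c κ Y) : (V ⧸ Y) →ₗ[ZMod 2] K := Y.liftQ κ fun y hy => X.hY y hy

theorem kb_mk (X : RP D c κ Y) (v : V) : X.kb (Y.mkQ v) = κ v := rfl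

/-- slots mod `Y` -/
def Sl (_X : RP D c κ Y) (x : V ⧸ Y) : Prop := ∃ s, Y.mkQ s = x ∧ Sg D c s

/-- adjacency mod `Y` -/
def Ad (_X : RP D c κ Y) (x y : V ⧸ Y) : Prop := ∃ s t, Y.mkQ s = x ∧ Y.mkQ t = y ∧ D.q s t = c

theorem mk_eq {Y : Submodule (ZMod 2) V} {a b : V} : Y.mkQ a = Y.mkQ b ↔ a + b ∈ Y := by
  rw [Submodule.mkQ_apply, Submodule.mkQ_apply, Submodule.Quotient.eq, ZModModule.sub_eq_add]

variable (X : RP D c κ Y)
include X

theorem Ad.symm {x y : V ⧸ Y} (h : X.Ad x y) : X.Ad y x := by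
  obtain ⟨s, t, h1, h2, h3⟩ := h
  exact ⟨t, s, h2, h1, by rw [D.symm]; exact h3⟩

theorem Ad.comm {x y : V ⧸ Y} : X.Ad x y ↔ X.Ad y x := ⟨fun h => Ad.symm X h, fun h => Ad.symm X h⟩

theorem Ad.rep {x y : V ⧸ Y} (h : X.Ad x y) {s : V} (hs : Sg D c s) (hx : Y.mkQ s = x) :
    ∃ t, Y.mkQ t = y ∧ D.q s t = c := by
  obtain ⟨s1, t1, h1, h2, h3⟩ := h
  obtain ⟨t', h4, h5⟩ := X.vs s1 s t1 hs (mk_eq.1 (h1.trans hx.symm)) h3
  exact ⟨t', (mk_eq.2 h5).symm.trans h2, h4⟩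

theorem Ad.cls {x y : V ⧸ Y} (h : X.Ad x y) : X.kb y ≠ 0 ∧ X.kb y ≠ X.kb x := by
  obtain ⟨s, t, rfl, rfl, h3⟩ := h
  rw [X.kb_mk, X.kb_mk]
  exact cls_nb X.he X.av h3

theorem Ad.sl {x y : V ⧸ Y} (h : X.Ad x y) : X.Sl y := by
  obtain ⟨s, t, h1, h2, h3⟩ := h
  exact ⟨t, h2, Sg.right h3⟩

/-- `V_s ∩ ker κ` mod `Y` -/
def US (X : RP D c κ Y) (s : V) : Submodule (ZMod 2) (V ⧸ Y) :=
  (D.ann s ⊓ LinearMap.ker κ).map Y.mkQ

theorem mem_US {s : V} {w : V ⧸ Y} : w ∈ X.US s ↔ ∃ u, C D s u ∧ κ u = 0 ∧ Y.mkQ u = w := by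
  unfold US
  rw [Submodule.mem_map]
  constructor
  · rintro ⟨u, ⟨h1, h2⟩, h3⟩
    exact ⟨u, h1, h2, h3⟩
  · rintro ⟨u, h1, h2, h3⟩
    exact ⟨u, ⟨h1, h2⟩, h3⟩

/-- the neighbours of one class form a coset of `US` -/
theorem ad_coset {s : V} (hs : Sg D c s) {y0 y : V ⧸ Y} (h0 : X.Ad (Y.mkQ s) y0) :
    (X.Ad (Y.mkQ s) y ∧ X.kb y = X.kb y0) ↔ y + y0 ∈ X.US s := by
  obtain ⟨t0, rfl, h1⟩ := Ad.rep X h0 hs rfl
  rw [X.mem_US]
  constructor
  · rintro ⟨h2, h3⟩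
    obtain ⟨t, rfl, h4⟩ := Ad.rep X h2 hs rfl
    rw [X.kb_mk, X.kb_mk] at h3
    refine ⟨t + t0, q_eq_iff.1 (h4.trans h1.symm), ?_, ?_⟩
    · rw [map_add, h3, k_self]
    · rw [map_add]
  · rintro ⟨u, h2, h3, h4⟩
    have h5 : y = Y.mkQ (t0 + u) := by
      rw [map_add, h4, add_comm y, ← add_assoc, ZModModule.add_self, zero_add]
    subst h5
    refine ⟨⟨s, t0 + u, rfl, rfl, qa h1 h2⟩, ?_⟩
    rw [X.kb_mk, X.kb_mk, map_add, h3, add_zero]

/-- the set of slots of class `a` mod `Y` -/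
abbrev I (X : RP D c κ Y) (a : K) : Type := {x : V ⧸ Y // X.kb x = a ∧ X.Sl x}

/-- existence of a neighbour of class `b` -/
theorem exists_ad {s : V} (hs : Sg D c s) {b : K} (hb : b ≠ 0) (hbs : b ≠ κ s) :
    ∃ y, X.Ad (Y.mkQ s) y ∧ X.kb y = b := by
  obtain ⟨t, h1, h2⟩ := exists_nb X.he X.av hs hb hbs
  exact ⟨Y.mkQ t, ⟨s, t, rfl, rfl, h1⟩, by rw [X.kb_mk, h2]⟩

section fin

variable [Fintype (V ⧸ Y)]

/-- row sums -/
theorem row {s : V} (hs : Sg D c s) {b : K} (hb : b ≠ 0) (hbs : b ≠ κ s) [Fintype (X.I b)] :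
    ∑ y : X.I b, i1 (X.Ad (Y.mkQ s) y.1) = (Nat.card (X.US s) : ℝ) := by
  obtain ⟨y0, h1, h2⟩ := X.exists_ad hs hb hbs
  rw [sum_sub (fun y => i1 (X.Ad (Y.mkQ s) y)), ← sum_i1_card]
  have e : ∀ y : V ⧸ Y, i1 (X.kb y = b ∧ X.Sl y) * i1 (X.Ad (Y.mkQ s) y) =
      i1 (X.Ad (Y.mkQ s) y ∧ X.kb y = b) := by
    intro y
    rw [← i1_and]
    exact i1_congr ⟨fun h => ⟨h.2, h.1.1⟩, fun h => ⟨⟨h.2, Ad.sl X h.1⟩, h.1⟩⟩
  rw [Finset.sum_congr rfl fun y _ => e y]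
  refine sum_i1_shift y0 fun y => ?_
  have h3 := X.ad_coset hs (y := y + y0) h1
  rw [h2] at h3
  rw [h3, add_assoc, ZModModule.add_self, add_zero]

/-- two slots of different classes have exactly one common neighbour mod `Y` -/
theorem two {a b e : K} (hab : a ≠ b) (he : e = a + b) (x : X.I a) (y : X.I b) (ha : a ≠ 0)
    (hb : b ≠ 0) [Fintype (X.I e)] :
    ∑ r : X.I e, i1 (X.Ad x.1 r.1) * i1 (X.Ad y.1 r.1) = 1 := by
  obtain ⟨x, hxa, s, rfl, hs⟩ := x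
  obtain ⟨y, hyb, t, rfl, ht⟩ := y
  rw [X.kb_mk] at hxa hyb
  show ∑ r : X.I e, i1 (X.Ad (Y.mkQ s) r.1) * i1 (X.Ad (Y.mkQ t) r.1) = 1
  rw [sum_sub (fun r => i1 (X.Ad (Y.mkQ s) r) * i1 (X.Ad (Y.mkQ t) r))]
  obtain ⟨r, h1, h2⟩ := hs.common ht
  have c1 := cls_nb X.he X.av h1
  have c2 := cls_nb X.he X.av h2
  have c3 : κ r = e := by
    rw [he, ← hxa, ← hyb]
    exact k_third (by rwa [hxa]) (by rwa [hyb]) (by rwa [hxa, hyb]) _ c1.1 c1.2 c2.2
  have A1 : X.Ad (Y.mkQ s) (Y.mkQ r) := ⟨s, r, rfl, rfl, h1⟩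
  have A2 : X.Ad (Y.mkQ t) (Y.mkQ r) := ⟨t, r, rfl, rfl, h2⟩
  rw [Finset.sum_eq_single (Y.mkQ r)]
  · rw [i1_true (show X.kb (Y.mkQ r) = e ∧ X.Sl (Y.mkQ r) from ⟨c3, Ad.sl X A1⟩), i1_true A1,
      i1_true A2]
    norm_num
  · intro z _ hz
    by_cases h3 : X.kb z = e ∧ X.Ad (Y.mkQ s) z ∧ X.Ad (Y.mkQ t) z
    · exfalso
      obtain ⟨h4, h5, h6⟩ := h3
      have h7 := (X.ad_coset hs (y := z) A1).1 ⟨h5, by rw [h4, X.kb_mk, c3]⟩
      have h8 := (X.ad_coset ht (y := z) A2).1 ⟨h6, by rw [h4, X.kb_mk, c3]⟩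
      rw [X.mem_US] at h7 h8
      obtain ⟨u, g1, g2, g3⟩ := h7
      obtain ⟨v, g4, g5, g6⟩ := h8
      have h9 : u ∈ Y := X.pr s t u v hs ht (by rwa [hxa, hyb]) g1 g4 g2 g5
        (mk_eq.1 (g3.trans g6.symm))
      have h10 : Y.mkQ u = 0 := by
        rw [Submodule.mkQ_apply]; exact (Submodule.Quotient.mk_eq_zero _).2 h9
      rw [h10] at g3
      exact hz (eo g3.symm)
    · by_cases h4 : X.kb z = e
      · by_cases h5 : X.Ad (Y.mkQ s) z
        · rw [i1_false (P := X.Ad (Y.mkQ t) z) fun h6 => h3 ⟨h4, h5, h6⟩]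
          ring
        · rw [i1_false h5]; ring
      · rw [i1_false (P := X.kb z = e ∧ X.Sl z) fun h => h4 h.1]; ring
  · intro h
    exact absurd (Finset.mem_univ _) h

/-- two different slots of one class have no common neighbours in two classes mod `Y` -/
theorem notboth {a b e : K} (ha : a ≠ 0) (he : e = a + b)
    {x x' y z : V ⧸ Y} (hxx : X.kb x = X.kb x') (hy : X.kb y = b) (hz : X.kb z = e)
    (h1 : X.Ad x y) (h2 : X.Ad x' y) (h3 : X.Ad x z) (h4 : X.Ad x' z) : x = x' := by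
  have hbe : b ≠ e := by rw [he]; exact (k_add_ne_right ha).symm
  obtain ⟨t, rfl, ht⟩ := Ad.sl X h1
  obtain ⟨r, rfl, hr⟩ := Ad.sl X h3
  obtain ⟨s, rfl, g1⟩ := Ad.rep X (Ad.symm X h1) ht rfl
  obtain ⟨s', rfl, g2⟩ := Ad.rep X (Ad.symm X h2) ht rfl
  obtain ⟨s2, e1, g3⟩ := Ad.rep X (Ad.symm X h3) hr rfl
  obtain ⟨s2', e2, g4⟩ := Ad.rep X (Ad.symm X h4) hr rfl
  rw [X.kb_mk] at hy hz
  rw [X.kb_mk, X.kb_mk] at hxx
  have k1 : κ s2 = κ s := by rw [← X.kb_mk, ← X.kb_mk, e1]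
  have k2 : κ s2' = κ s' := by rw [← X.kb_mk, ← X.kb_mk, e2]
  have h5 : s + s' ∈ Y := by
    refine X.pr t r (s + s') (s2 + s2') ht hr (by rw [hy, hz]; exact hbe)
      (q_eq_iff.1 (g1.trans g2.symm)) (q_eq_iff.1 (g3.trans g4.symm)) ?_ ?_ ?_
    · rw [map_add, hxx, k_self]
    · rw [map_add, k1, k2, hxx, k_self]
    · have h6 := Y.add_mem (mk_eq.1 e1) (mk_eq.1 e2)
      rwa [show s2 + s + (s2' + s') = s + s' + (s2 + s2') from by abel] at h6
  exact mk_eq.2 h5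

/-- a representative -/
noncomputable def rp (X : RP D c κ Y) {a : K} (x : X.I a) : V := x.2.2.choose

theorem rp_mk {a : K} (x : X.I a) : Y.mkQ (X.rp x) = x.1 := x.2.2.choose_spec.1

theorem rp_sg {a : K} (x : X.I a) : Sg D c (X.rp x) := x.2.2.choose_spec.2

theorem rp_cls {a : K} (x : X.I a) : κ (X.rp x) = a := by
  rw [← X.kb_mk, X.rp_mk, x.2.1]

/-- the Gram matrix -/
theorem gram {a b e : K} (ha : a ≠ 0) (hb : b ≠ 0) (hab : a ≠ b) (he : e = a + b) (x x' : X.I a)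
    [Fintype (X.I b)] [Fintype (X.I e)] :
    ∑ y : X.I b, i1 (X.Ad x.1 y.1) * i1 (X.Ad x'.1 y.1) +
      ∑ z : X.I e, i1 (X.Ad x.1 z.1) * i1 (X.Ad x'.1 z.1) =
    ∑ w, i1 (w ∈ X.US (X.rp x)) * i1 (w ∈ X.US (X.rp x')) +
      i1 (x = x') * (Nat.card (X.US (X.rp x)) : ℝ) := by
  have hea : e ≠ a := by rw [he]; exact k_add_ne_left hb
  have hez : e ≠ 0 := by rw [he]; exact k_add_ne hab
  have cx := X.rp_cls x
  have cx' := X.rp_cls x'
  by_cases hx : x = x'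
  · subst hx
    have e1 : ∀ P : Prop, i1 P * i1 P = i1 P := fun P => by
      rw [← i1_and]; exact i1_congr (and_self_iff)
    simp only [e1]
    rw [i1_true trivial, one_mul, sum_i1_card]
    have r1 := X.row (X.rp_sg x) (b := b) hb (by rw [cx]; exact hab.symm)
    have r2 := X.row (X.rp_sg x) (b := e) hez (by rw [cx]; exact hea)
    rw [X.rp_mk] at r1 r2
    rw [r1, r2]
  · rw [i1_false hx, zero_mul, add_zero]
    -- the sum over one class, given a common neighbour there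
    have key : ∀ (f : K) [Fintype (X.I f)] (y0 : V ⧸ Y), X.kb y0 = f → X.Ad x.1 y0 →
        X.Ad x'.1 y0 → ∑ y : X.I f, i1 (X.Ad x.1 y.1) * i1 (X.Ad x'.1 y.1) =
          ∑ w, i1 (w ∈ X.US (X.rp x)) * i1 (w ∈ X.US (X.rp x')) := by
      intro f _ y0 g1 g2 g3
      rw [sum_sub (fun y => i1 (X.Ad x.1 y) * i1 (X.Ad x'.1 y))]
      have e2 : ∀ y : V ⧸ Y, i1 (X.kb y = f ∧ X.Sl y) * (i1 (X.Ad x.1 y) * i1 (X.Ad x'.1 y)) =
          i1 ((X.Ad x.1 y ∧ X.kb y = f) ∧ (X.Ad x'.1 y ∧ X.kb y = f)) := by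
        intro y
        rw [← i1_and, ← i1_and]
        exact i1_congr ⟨fun h => ⟨⟨h.2.1, h.1.1⟩, h.2.2, h.1.1⟩,
          fun h => ⟨⟨h.1.2, Ad.sl X h.1.1⟩, h.1.1, h.2.1⟩⟩
      have e3 : ∀ w : V ⧸ Y, i1 (w ∈ X.US (X.rp x)) * i1 (w ∈ X.US (X.rp x')) =
          i1 (w ∈ X.US (X.rp x) ∧ w ∈ X.US (X.rp x')) := fun w => (i1_and _ _).symm
      rw [Finset.sum_congr rfl fun y _ => e2 y, Finset.sum_congr rfl fun y _ => e3 y]
      refine sum_i1_shift y0 fun y => ?_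
      have h3 := X.ad_coset (X.rp_sg x) (y := y + y0) (y0 := y0) (by rw [X.rp_mk]; exact g2)
      have h4 := X.ad_coset (X.rp_sg x') (y := y + y0) (y0 := y0) (by rw [X.rp_mk]; exact g3)
      rw [X.rp_mk, g1, add_assoc, ZModModule.add_self, add_zero] at h3 h4
      rw [h3, h4]
    have zero : ∀ (f : K) [Fintype (X.I f)], (∀ y : V ⧸ Y, X.kb y = f → X.Ad x.1 y →
        ¬ X.Ad x'.1 y) → ∑ y : X.I f, i1 (X.Ad x.1 y.1) * i1 (X.Ad x'.1 y.1) = 0 := by
      intro f _ h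
      refine Finset.sum_eq_zero fun y _ => ?_
      rw [← i1_and]
      exact i1_false fun g => h y.1 y.2.1 g.1 g.2
    obtain ⟨r, h1, h2⟩ := (X.rp_sg x).common (X.rp_sg x')
    have c1 := cls_nb X.he X.av h1
    rw [cx] at c1
    have A1 : X.Ad x.1 (Y.mkQ r) := ⟨X.rp x, r, X.rp_mk x, rfl, h1⟩
    have A2 : X.Ad x'.1 (Y.mkQ r) := ⟨X.rp x', r, X.rp_mk x', rfl, h2⟩
    have hne : x.1 ≠ x'.1 := fun h => hx (Subtype.ext h)
    have hk : X.kb x.1 = X.kb x'.1 := by rw [x.2.1, x'.2.1]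
    by_cases h3 : κ r = b
    · rw [key b (Y.mkQ r) h3 A1 A2, zero e, add_zero]
      intro z hz h4 h5
      exact hne (X.notboth ha he hk (y := Y.mkQ r) h3 hz A1 A2 h4 h5)
    · have h4 : κ r = e := by
        rw [he]
        exact k_third ha hb hab _ c1.1 c1.2 h3
      rw [key e (Y.mkQ r) h4 A1 A2, zero b, zero_add]
      intro z hz h5 h6
      exact hne (X.notboth ha he hk (z := Y.mkQ r) hz h4 h5 h6 A1 A2)

end fin

end RP

end Pool.Agent.ETRP
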