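import Pool.Agent.ETRP.Dich
import Pool.Agent.ETCLH.Main

/-!
The rank-two branch for quaternionic structures with `-1 = 1`: if all smaller structures are of
elementary type and there is a form of rank two (`CO`), then the structure is of elementary type or
there are `G = ker k > Y` as in Theorem COLOR such that every functional `α ≠ 0` which vanishes on
`Y` is bad.
-/

set_option autoImplicit false
set_option linter.unusedSectionVars false

namespace Pool.Agent.ETRP

open QS Pool.Agent.RFT Pool.Agent.ETG Pool.Agent.RFN Pool.Agent.REG10 Pool.Agent.AST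
open Pool.Agent.Helper58.PLine (QData)
open Pool.Agent.ETCLH

/-- a linked hyperplane, as the kernel of a functional -/
theorem et_of_linked (S : QStruct) [Finite S.G] (hneg : S.neg = 1)
    (hT : ∀ T : QStruct, Finite T.G → T.neg = 1 → Nat.card T.G < Nat.card S.G → ElemType T)
    {k : Module.Dual (ZMod 2) (Additive S.G)} (hk : ∃ v, k v = 1)
    (h : ∀ a b c d, k a = 0 → k b = 0 → k c = 0 → k d = 0 →
      (toD S hneg).q a b = (toD S hneg).q c d → ∃ x, k x = 0 ∧
        (toD S hneg).q a x = (toD S hneg).q a b ∧ (toD S hneg).q c x = (toD S hneg).q a b) :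
    ElemType S := by
  have hf : Finite (Additive S.G) := (inferInstance : Finite S.G)
  refine LHZ (lzs S hneg) (smaller S hT) ⟨k, ?_, ?_⟩ S (qof S hneg)
  · rintro rfl
    obtain ⟨v, hv⟩ := hk
    rw [LinearMap.zero_apply] at hv
    exact absurd hv (by decide)
  · intro a b c d ha hb hc hd h1
    have h' : (toD S hneg).q a b = (toD S hneg).q c d := by
      obtain ⟨x, e1, e2, e3⟩ := h1
      have k1 : (toD S hneg).q a b = (toD S hneg).q a x := ((toD S hneg).add a b x).2 e1
      have k2 : (toD S hneg).q c d = (toD S hneg).q c x := ((toD S hneg).add c d x).2 e2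
      have k3 : (toD S hneg).q a x = (toD S hneg).q c x := ETCP.q_eq'_iff.2 e3
      exact (k1.trans k3).trans k2.symm
    obtain ⟨x, hx, h4, h5⟩ := h a b c d ha hb hc hd h'
    refine ⟨x, hx, ?_, ?_, ?_⟩
    · exact ((toD S hneg).add a b x).1 h4.symm
    · exact ((toD S hneg).add c d x).1 (h'.symm.trans h5.symm)
    · have k3 : (toD S hneg).q a x = (toD S hneg).q c x := h4.trans h5.symm
      exact ETCP.q_eq'_iff.1 k3

/-- **the rank-two branch**: COLOR and DICH together -/
theorem et_or_bad (S : QStruct) [Finite S.G] (hneg : S.neg = 1)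
    (hT : ∀ T : QStruct, Finite T.G → T.neg = 1 → Nat.card T.G < Nat.card S.G → ElemType T)
    {κ : Additive S.G →ₗ[ZMod 2] K} (X : CO (toD S hneg) κ) :
    ElemType S ∨ ∃ (k : Module.Dual (ZMod 2) (Additive S.G))
      (Y : Submodule (ZMod 2) (Additive S.G)), GY (toD S hneg) k Y ∧
      ∀ α : Module.Dual (ZMod 2) (Additive S.G), α ≠ 0 → (∀ y ∈ Y, α y = 0) →
        ¬ NB (toD S hneg) Y α := by
  have hf : Finite (Additive S.G) := (inferInstance : Finite S.G)
  obtain ⟨k, Y, G⟩ := X.color
  by_cases h : ∃ α : Module.Dual (ZMod 2) (Additive S.G), α ≠ 0 ∧ (∀ y ∈ Y, α y = 0) ∧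
      NB (toD S hneg) Y α
  · left
    obtain ⟨α, -, h2, h3⟩ := h
    exact et_of_linked S hneg hT G.k1 fun a b c d ha hb hc hd hq =>
      G.linked_of_one h2 h3 ha hb hc hd hq
  · right
    exact ⟨k, Y, G, fun α h1 h2 h3 => h ⟨α, h1, h2, h3⟩⟩

end Pool.Agent.ETRP
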